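import Pool.Agent.W993.SD.Norm

/-! Project SD: number of bases met on `[0, T]` inside the box. -/

set_option autoImplicit false
open MeasureTheory ProbabilityTheory

namespace W993.SD

variable {m n : ℕ}

lemma PB_of_mem {p : Finset (Fin m) × Finset (Fin n)} (hp : p ∈ Bases m n)
    (E : (f : Fin p.1.card → Fin m) → (h : Fin p.1.card → Fin n) → Set (Idx m n → ℝ)) :
    ∃ e : p.2.card = p.1.card, PB p E = G (Idx m n) (E (fI p.1) (hJ p.1 p.2 e)) := by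
  have e : p.2.card = p.1.card := by simpa [Bases] using hp
  exact ⟨e, by unfold PB; rw [dif_pos e]⟩

/-- strictly optimal bases are disjoint events -/
lemma sum_PB_SO_le (H4 : S_Unique) (A₀ : Fin m → Fin n → ℝ) (b₀ : Fin m → ℝ) (c₀ : Fin n → ℝ)
    (s L g : ℝ) :
    ∑ p ∈ Bases m n, PB p (fun f h => {ω | Box L ω ∧ g ≤ gs (dA A₀ s ω) f h ∧
        SO (dA A₀ s ω) (dB b₀ s ω) (dC c₀ s ω) f h}) ≤ 1 := by
  classical
  simp_rw [PB_eq]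
  have hmeas : ∀ p : Finset (Fin m) × Finset (Fin n), MeasurableSet (Ev p
      (fun f h => {ω : Idx m n → ℝ | Box L ω ∧ g ≤ gs (dA A₀ s ω) f h ∧
        SO (dA A₀ s ω) (dB b₀ s ω) (dC c₀ s ω) f h})) := by
    intro p
    unfold Ev
    split_ifs with e
    · refine (measurableSet_Box L).inter (MeasurableSet.inter ?_ ?_)
      · exact measurableSet_le measurable_const ((measurable_gs _ _).comp (measurable_dA A₀ s))
      · exact measurableSet_SO_data A₀ b₀ c₀ s _ _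
    · exact MeasurableSet.empty
  rw [← measure_biUnion_finset ?_ (fun p _ => hmeas p)]
  · exact prob_le_one
  · intro p _ p' _ hpp
    rw [Function.onFun, Set.disjoint_left]
    intro ω h1 h2
    apply hpp
    unfold Ev at h1 h2
    split_ifs at h1 with e
    · split_ifs at h2 with e'
      · obtain ⟨h3, h4⟩ := H4 m n _ _ _ _ _ _ _ _ _ (fI_injective _) (hJ_injective _ _ e)
          (fI_injective _) (hJ_injective _ _ e') h1.2.2 h2.2.2.wo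
        rw [range_fI, range_fI] at h3
        rw [range_hJ, range_hJ] at h4
        exact Prod.ext (Finset.coe_injective h3) (Finset.coe_injective h4)
      · exact absurd h2 (Set.notMem_empty _)
    · exact absurd h1 (Set.notMem_empty _)

/-- one class of bases, one basis: cover the time interval by windows -/
lemma window_one (H1 : S_Shear) {k : ℕ} (f : Fin k → Fin m) (h : Fin k → Fin n)
    (hf : Function.Injective f) (hh : Function.Injective h)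
    (A₀ : Fin m → Fin n → ℝ) (b₀ : Fin m → ℝ) (c₀ : Fin n → ℝ) (s H L T τ g₁ g₂ : ℝ)
    (hs : 0 < s) (hs1 : s ≤ 1) (hH : 1 ≤ H) (hL : 1 ≤ L) (hτ : 0 < τ) (hg : 0 ≤ g₂)
    (hA : ∀ i j, |A₀ i j| ≤ H)
    (hτ2 : 8 * ((m : ℝ) + n + 1) ^ 2 * (H + L) ^ 3 * (1 + g₂) * τ ≤ s) (K : ℕ)
    (hK : T / τ < K) :
    G (Idx m n) {ω | Box L ω ∧ g₁ ≤ gs (dA A₀ s ω) f h ∧ gs (dA A₀ s ω) f h ≤ g₂ ∧
        ∃ t : ℝ, 0 ≤ t ∧ t ≤ T ∧
          WO (dA A₀ s ω) (fun i => dB b₀ s ω i + t) (fun j => dC c₀ s ω j - t) f h} ≤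
      ∑ j ∈ Finset.range K, 8 * G (Idx m n) {ω | Box (2 * L) ω ∧ g₁ ≤ gs (dA A₀ s ω) f h ∧
        SO (dA A₀ s ω) (dB (fun i => b₀ i + j * τ) s ω) (dC (fun i => c₀ i - j * τ) s ω) f h} := by
  have hsub : {ω : Idx m n → ℝ | Box L ω ∧ g₁ ≤ gs (dA A₀ s ω) f h ∧ gs (dA A₀ s ω) f h ≤ g₂ ∧
        ∃ t : ℝ, 0 ≤ t ∧ t ≤ T ∧
          WO (dA A₀ s ω) (fun i => dB b₀ s ω i + t) (fun j => dC c₀ s ω j - t) f h} ⊆
      ⋃ j ∈ Finset.range K, {ω | Box L ω ∧ g₁ ≤ gs (dA A₀ s ω) f h ∧ gs (dA A₀ s ω) f h ≤ g₂ ∧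
        ∃ t : ℝ, 0 ≤ t ∧ t ≤ τ ∧
          WO (dA A₀ s ω) (fun i => dB (fun i => b₀ i + j * τ) s ω i + t)
            (fun i => dC (fun i => c₀ i - j * τ) s ω i - t) f h} := by
    rintro ω ⟨h1, h2, h3, t, ht0, htT, hW⟩
    rw [Set.mem_iUnion₂]
    have hfl : ((⌊t / τ⌋₊ : ℕ) : ℝ) ≤ t / τ := Nat.floor_le (div_nonneg ht0 hτ.le)
    have hfl2 : t / τ < ⌊t / τ⌋₊ + 1 := Nat.lt_floor_add_one _
    refine ⟨⌊t / τ⌋₊, ?_, h1, h2, h3, t - ⌊t / τ⌋₊ * τ, ?_, ?_, ?_⟩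
    · rw [Finset.mem_range]
      have : ((⌊t / τ⌋₊ : ℕ) : ℝ) < K :=
        lt_of_le_of_lt (hfl.trans (div_le_div_of_nonneg_right htT hτ.le)) hK
      exact_mod_cast this
    · rw [le_div_iff₀ hτ] at hfl; linarith
    · rw [div_lt_iff₀ hτ] at hfl2; linarith
    · convert hW using 2 <;> (simp only [dB, dC]; ring)
  refine (measure_mono hsub).trans ((measure_biUnion_finset_le _ _).trans ?_)
  refine Finset.sum_le_sum fun j _ => ?_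
  exact H1 m n k f h A₀ _ _ s L H τ g₁ g₂ hf hh hs hs1 hL hH hτ hg hA hτ2

lemma eight_mul_sum {α : Type*} (S : Finset α) (F : α → ENNReal) :
    ∑ p ∈ S, 8 * F p = 8 * ∑ p ∈ S, F p := by rw [Finset.mul_sum]

/-- one class of bases, all bases -/
lemma window_all (H1 : S_Shear)
    (A₀ : Fin m → Fin n → ℝ) (b₀ : Fin m → ℝ) (c₀ : Fin n → ℝ) (s H L T τ g₁ g₂ : ℝ)
    (hs : 0 < s) (hs1 : s ≤ 1) (hH : 1 ≤ H) (hL : 1 ≤ L) (hT : 0 ≤ T) (hτ : 0 < τ) (hg : 0 ≤ g₂)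
    (hA : ∀ i j, |A₀ i j| ≤ H)
    (hτ2 : 8 * ((m : ℝ) + n + 1) ^ 2 * (H + L) ^ 3 * (1 + g₂) * τ ≤ s) (B : ENNReal)
    (hB : ∀ t, 0 ≤ t → t ≤ T → ∑ p ∈ Bases m n, PB p (fun f h =>
        {ω | Box (2 * L) ω ∧ g₁ ≤ gs (dA A₀ s ω) f h ∧
        SO (dA A₀ s ω) (dB (fun i => b₀ i + t) s ω) (dC (fun i => c₀ i - t) s ω) f h}) ≤ B) :
    ∑ p ∈ Bases m n, PB p (fun f h =>
      {ω | Box L ω ∧ g₁ ≤ gs (dA A₀ s ω) f h ∧ gs (dA A₀ s ω) f h ≤ g₂ ∧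
        ∃ t : ℝ, 0 ≤ t ∧ t ≤ T ∧
          WO (dA A₀ s ω) (fun i => dB b₀ s ω i + t) (fun j => dC c₀ s ω j - t) f h}) ≤
      ENNReal.ofReal (T / τ + 1) * (8 * B) := by
  set K : ℕ := ⌊T / τ⌋₊ + 1 with hKdef
  have hTτ : 0 ≤ T / τ := div_nonneg hT hτ.le
  have hK : T / τ < K := by rw [hKdef]; push_cast; exact Nat.lt_floor_add_one _
  have hK2 : (K : ℝ) ≤ T / τ + 1 := by
    rw [hKdef]; push_cast; linarith [Nat.floor_le hTτ]
  calc ∑ p ∈ Bases m n, PB p (fun f h =>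
      {ω | Box L ω ∧ g₁ ≤ gs (dA A₀ s ω) f h ∧ gs (dA A₀ s ω) f h ≤ g₂ ∧
        ∃ t : ℝ, 0 ≤ t ∧ t ≤ T ∧
          WO (dA A₀ s ω) (fun i => dB b₀ s ω i + t) (fun j => dC c₀ s ω j - t) f h})
      ≤ ∑ p ∈ Bases m n, ∑ j ∈ Finset.range K, 8 * PB p (fun f h =>
        {ω | Box (2 * L) ω ∧ g₁ ≤ gs (dA A₀ s ω) f h ∧
        SO (dA A₀ s ω) (dB (fun i => b₀ i + j * τ) s ω)
          (dC (fun i => c₀ i - j * τ) s ω) f h}) := by
        refine Finset.sum_le_sum fun p hp => ?_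
        have e : p.2.card = p.1.card := by simpa [Bases] using hp
        unfold PB
        simp only [dif_pos e]
        exact window_one H1 _ _ (fI_injective _) (hJ_injective _ _ e) A₀ b₀ c₀ s H L T τ g₁ g₂
          hs hs1 hH hL hτ hg hA hτ2 K hK
    _ = ∑ j ∈ Finset.range K, 8 * ∑ p ∈ Bases m n, PB p (fun f h =>
        {ω | Box (2 * L) ω ∧ g₁ ≤ gs (dA A₀ s ω) f h ∧
        SO (dA A₀ s ω) (dB (fun i => b₀ i + j * τ) s ω)
          (dC (fun i => c₀ i - j * τ) s ω) f h}) := by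
        rw [Finset.sum_comm]
        refine Finset.sum_congr rfl fun j _ => ?_
        rw [eight_mul_sum]
    _ ≤ ∑ j ∈ Finset.range K, 8 * B := by
        refine Finset.sum_le_sum fun j hj => ?_
        refine mul_le_mul_right ?_ _
        refine hB (j * τ) (by positivity) ?_
        have h1 : j ≤ ⌊T / τ⌋₊ := by
          have := Finset.mem_range.1 hj; omega
        have h2 : (j : ℝ) ≤ T / τ := (Nat.cast_le.2 h1).trans (Nat.floor_le hTτ)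
        rwa [le_div_iff₀ hτ] at h2
    _ = (K : ENNReal) * (8 * B) := by
        rw [Finset.sum_const, Finset.card_range, nsmul_eq_mul]
    _ ≤ ENNReal.ofReal (T / τ + 1) * (8 * B) := by
        refine mul_le_mul_left ?_ _
        rw [← ENNReal.ofReal_natCast]
        exact ENNReal.ofReal_le_ofReal hK2

/-- numerical facts about the size parameter -/
lemma q_facts (m n : ℕ) (H L T s : ℝ) (hs : 0 < s) (hs1 : s ≤ 1) (hH : 1 ≤ H) (hL : 1 ≤ L)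
    (hT : 1 ≤ T) :
    1 ≤ Q m n (H + T) L s ∧ Q m n (H + T) (2 * L) s ≤ 2 * Q m n (H + T) L s ∧
    0 ≤ Q m n (H + T) (2 * L) s ∧
    T * ((m : ℝ) + n + 1) ^ 2 * (H + L) ^ 3 / s ≤ Q m n (H + T) L s ^ 4 ∧
    ((m : ℝ) + n + 1) ^ 4 / s ≤ Q m n (H + T) L s ^ 4 ∧
    (m : ℝ) + n + 1 ≤ Q m n (H + T) L s := by
  have hm0 : (0 : ℝ) ≤ m := Nat.cast_nonneg m
  have hn0 : (0 : ℝ) ≤ n := Nat.cast_nonneg n
  unfold Q
  rw [abs_of_pos hs]
  obtain ⟨P, hP⟩ : ∃ P : ℝ, P = (m : ℝ) + n + 1 := ⟨_, rfl⟩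
  obtain ⟨D, hD⟩ : ∃ D : ℝ, D = H + T + L := ⟨_, rfl⟩
  obtain ⟨i, hi⟩ : ∃ i : ℝ, i = 1 / s := ⟨_, rfl⟩
  rw [← hP, ← hD]
  have hP1 : 1 ≤ P := by rw [hP]; linarith
  have hD1 : 1 ≤ D := by rw [hD]; linarith
  have hi1 : 1 ≤ i := by rw [hi, le_div_iff₀ hs]; linarith
  have hTD : T ≤ D := by rw [hD]; linarith
  have hHL : H + L ≤ D := by rw [hD]; linarith
  have hdiv : ∀ x : ℝ, x / s = x * i := fun x => by rw [hi]; ring
  simp only [hdiv]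
  have h1 : 1 ≤ P * D := one_le_mul_of_one_le_of_one_le hP1 hD1
  have h2 : 1 ≤ P * D * i := one_le_mul_of_one_le_of_one_le h1 hi1
  have hi4 : i ≤ i ^ 4 := le_self_pow₀ hi1 (by norm_num)
  refine ⟨h2, ?_, ?_, ?_, ?_, ?_⟩
  · have : P * (H + T + 2 * L) ≤ 2 * (P * D) := by rw [hD]; nlinarith
    calc P * (H + T + 2 * L) * i ≤ 2 * (P * D) * i :=
          mul_le_mul_of_nonneg_right this (by linarith)
      _ = 2 * (P * D * i) := by ring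
  · have : 0 ≤ H + T + 2 * L := by linarith
    have : 0 ≤ i := by linarith
    positivity
  · have a1 : (H + L) ^ 3 ≤ D ^ 3 := pow_le_pow_left₀ (by linarith) hHL 3
    have a2 : P ^ 2 ≤ P ^ 4 := pow_le_pow_right₀ hP1 (by norm_num)
    calc T * P ^ 2 * (H + L) ^ 3 * i ≤ D * P ^ 4 * D ^ 3 * i ^ 4 := by gcongr
      _ = (P * D * i) ^ 4 := by ring
  · have a2 : 1 ≤ D ^ 4 := one_le_pow₀ hD1
    calc P ^ 4 * i ≤ P ^ 4 * i ^ 4 * 1 := by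
          rw [mul_one]; gcongr
      _ ≤ P ^ 4 * i ^ 4 * D ^ 4 := by gcongr
      _ = (P * D * i) ^ 4 := by ring
  · calc P = P * 1 * 1 := by ring
      _ ≤ P * D * i := by gcongr

lemma one_add_log_two_pow (l : ℕ) : 1 + Real.log ((2 : ℝ) ^ l) ≤ 1 + l ∧
    0 ≤ 1 + Real.log ((2 : ℝ) ^ l) := by
  rw [Real.log_pow]
  have h1 : Real.log 2 ≤ 1 := by
    have := Real.log_two_lt_d9; linarith
  have h2 : 0 ≤ Real.log 2 := Real.log_nonneg (by norm_num)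
  constructor
  · have : (l : ℝ) * Real.log 2 ≤ l * 1 := mul_le_mul_of_nonneg_left h1 (Nat.cast_nonneg l)
    linarith
  · positivity

/-- class with `gs ≤ 1` -/
lemma class_base (H1 : S_Shear) (H4 : S_Unique)
    (A₀ : Fin m → Fin n → ℝ) (b₀ : Fin m → ℝ) (c₀ : Fin n → ℝ) (s H L T : ℝ)
    (hs : 0 < s) (hs1 : s ≤ 1) (hH : 1 ≤ H) (hL : 1 ≤ L) (hT : 1 ≤ T)
    (hBD : BD H A₀ b₀ c₀) :
    ∑ p ∈ Bases m n, PB p (fun f h =>
      {ω | Box L ω ∧ 0 ≤ gs (dA A₀ s ω) f h ∧ gs (dA A₀ s ω) f h ≤ 1 ∧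
        ∃ t : ℝ, 0 ≤ t ∧ t ≤ T ∧
          WO (dA A₀ s ω) (fun i => dB b₀ s ω i + t) (fun j => dC c₀ s ω j - t) f h}) ≤
      ENNReal.ofReal (144 * Q m n (H + T) L s ^ 4) := by
  obtain ⟨q1, q2, q3, q4, q5, q6⟩ := q_facts m n H L T s hs hs1 hH hL hT
  have hm0 : (0 : ℝ) ≤ m := Nat.cast_nonneg m
  have hn0 : (0 : ℝ) ≤ n := Nat.cast_nonneg n
  set P : ℝ := (m : ℝ) + n + 1 with hP
  have hP0 : 0 < P := by linarith
  have hden : 0 < 8 * P ^ 2 * (H + L) ^ 3 * (1 + 1) := by positivity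
  have hw := window_all H1 A₀ b₀ c₀ s H L T (s / (8 * P ^ 2 * (H + L) ^ 3 * (1 + 1))) 0 1
    hs hs1 hH hL (by linarith) (by positivity) zero_le_one hBD.1
    (by rw [mul_div_cancel₀ _ hden.ne']) 1 (fun t _ _ => sum_PB_SO_le H4 _ _ _ _ _ _)
  refine hw.trans ?_
  have h8 : (8 : ENNReal) * 1 = ENNReal.ofReal 8 := by simp
  rw [h8, ← ENNReal.ofReal_mul]
  · refine ENNReal.ofReal_le_ofReal ?_
    have e : T / (s / (8 * P ^ 2 * (H + L) ^ 3 * (1 + 1))) =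
        16 * (T * P ^ 2 * (H + L) ^ 3 / s) := by
      field_simp; ring
    rw [e]
    have h4 : 1 ≤ Q m n (H + T) L s ^ 4 := one_le_pow₀ q1
    linarith
  · have : 0 ≤ T / (s / (8 * P ^ 2 * (H + L) ^ 3 * (1 + 1))) := by positivity
    linarith

/-- class with `2^l ≤ gs ≤ 2^(l+1)` -/
lemma class_l (H1 : S_Shear) (C : ℝ) (hC : 0 < C)
    (H2 : ∀ (m n : ℕ) (A₀ : Fin m → Fin n → ℝ) (b₀ : Fin m → ℝ) (c₀ : Fin n → ℝ)
    (s H L g : ℝ), 0 < s → s ≤ 1 → 1 ≤ H → 1 ≤ L → 1 ≤ g → BD H A₀ b₀ c₀ →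
    ∑ p ∈ Bases m n, PB p (fun f h => {ω | Box L ω ∧ g ≤ gs (dA A₀ s ω) f h ∧
        SO (dA A₀ s ω) (dB b₀ s ω) (dC c₀ s ω) f h}) ≤
      ENNReal.ofReal (C * Q m n H L s ^ 16 * (1 + Real.log g) ^ 2 / g))
    (A₀ : Fin m → Fin n → ℝ) (b₀ : Fin m → ℝ) (c₀ : Fin n → ℝ) (s H L T : ℝ)
    (hs : 0 < s) (hs1 : s ≤ 1) (hH : 1 ≤ H) (hL : 1 ≤ L) (hT : 1 ≤ T)
    (hBD : BD H A₀ b₀ c₀) (l : ℕ) :
    ∑ p ∈ Bases m n, PB p (fun f h =>
      {ω | Box L ω ∧ 2 ^ l ≤ gs (dA A₀ s ω) f h ∧ gs (dA A₀ s ω) f h ≤ 2 ^ (l + 1) ∧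
        ∃ t : ℝ, 0 ≤ t ∧ t ≤ T ∧
          WO (dA A₀ s ω) (fun i => dB b₀ s ω i + t) (fun j => dC c₀ s ω j - t) f h}) ≤
      ENNReal.ofReal (216 * 65536 * C * Q m n (H + T) L s ^ 20 * (1 + l) ^ 2) := by
  obtain ⟨q1, q2, q3, q4, q5, q6⟩ := q_facts m n H L T s hs hs1 hH hL hT
  have hm0 : (0 : ℝ) ≤ m := Nat.cast_nonneg m
  have hn0 : (0 : ℝ) ≤ n := Nat.cast_nonneg n
  obtain ⟨P, hP⟩ : ∃ P : ℝ, P = (m : ℝ) + n + 1 := ⟨_, rfl⟩
  rw [← hP] at q4 q5 q6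
  have hP0 : 0 < P := by rw [hP]; linarith
  obtain ⟨q, hq⟩ : ∃ q : ℝ, q = Q m n (H + T) L s := ⟨_, rfl⟩
  obtain ⟨q', hq'⟩ : ∃ q : ℝ, q = Q m n (H + T) (2 * L) s := ⟨_, rfl⟩
  have hB : ∀ t, 0 ≤ t → t ≤ T → ∑ p ∈ Bases m n, PB p (fun f h =>
        {ω | Box (2 * L) ω ∧ 2 ^ l ≤ gs (dA A₀ s ω) f h ∧
        SO (dA A₀ s ω) (dB (fun i => b₀ i + t) s ω) (dC (fun i => c₀ i - t) s ω) f h}) ≤
        ENNReal.ofReal (C * q' ^ 16 * (1 + Real.log (2 ^ l)) ^ 2 / 2 ^ l) := by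
    intro t ht0 htT
    rw [hq']
    refine H2 m n A₀ _ _ s (H + T) (2 * L) (2 ^ l) hs hs1 (by linarith) (by linarith)
      (one_le_pow₀ (by norm_num)) ⟨fun i j => (hBD.1 i j).trans (by linarith), fun i => ?_,
        fun j => ?_⟩
    · refine (abs_add_le _ _).trans (add_le_add (hBD.2.1 i) ?_)
      rwa [abs_of_nonneg ht0]
    · refine (abs_sub _ _).trans (add_le_add (hBD.2.2 j) ?_)
      rwa [abs_of_nonneg ht0]
  have h2l : (1 : ℝ) ≤ 2 ^ l := one_le_pow₀ (by norm_num)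
  have hden : 0 < 8 * P ^ 2 * (H + L) ^ 3 * (1 + 2 ^ (l + 1)) := by positivity
  have hw := window_all H1 A₀ b₀ c₀ s H L T (s / (8 * P ^ 2 * (H + L) ^ 3 * (1 + 2 ^ (l + 1))))
    (2 ^ l) (2 ^ (l + 1)) hs hs1 hH hL (by linarith) (by positivity) (by positivity) hBD.1
    (by rw [← hP, mul_div_cancel₀ _ hden.ne']) _ hB
  refine hw.trans ?_
  have h8 : (8 : ENNReal) * ENNReal.ofReal (C * q' ^ 16 * (1 + Real.log (2 ^ l)) ^ 2 / 2 ^ l) =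
      ENNReal.ofReal (8 * (C * q' ^ 16 * (1 + Real.log (2 ^ l)) ^ 2 / 2 ^ l)) := by
    rw [ENNReal.ofReal_mul (by norm_num : (0 : ℝ) ≤ 8), ENNReal.ofReal_ofNat]
  have hT0 : 0 ≤ T / (s / (8 * P ^ 2 * (H + L) ^ 3 * (1 + 2 ^ (l + 1)))) := by positivity
  rw [h8, ← ENNReal.ofReal_mul (by linarith)]
  refine ENNReal.ofReal_le_ofReal ?_
  have e : T / (s / (8 * P ^ 2 * (H + L) ^ 3 * (1 + 2 ^ (l + 1)))) =
        8 * (1 + 2 ^ (l + 1)) * (T * P ^ 2 * (H + L) ^ 3 / s) := by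
    field_simp
  rw [e, ← hq]
  rw [← hq] at q1 q2 q4
  rw [← hq'] at q2 q3
  have h4 : 1 ≤ q ^ 4 := one_le_pow₀ q1
  have hfirst : 8 * (1 + 2 ^ (l + 1)) * (T * P ^ 2 * (H + L) ^ 3 / s) + 1 ≤
      27 * 2 ^ l * q ^ 4 := by
    have h5 : (1 + 2 ^ (l + 1) : ℝ) ≤ 3 * 2 ^ l := by rw [pow_succ]; linarith
    have h6 : 8 * (1 + 2 ^ (l + 1)) * (T * P ^ 2 * (H + L) ^ 3 / s) ≤
        8 * (3 * 2 ^ l) * q ^ 4 := by
      have : 0 ≤ T * P ^ 2 * (H + L) ^ 3 / s := by positivity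
      gcongr
    have h7 : 1 ≤ 3 * 2 ^ l * q ^ 4 := by nlinarith
    linarith
  obtain ⟨g1, g2⟩ := one_add_log_two_pow l
  have hsecond : 8 * (C * q' ^ 16 * (1 + Real.log (2 ^ l)) ^ 2 / 2 ^ l) ≤
      8 * (C * (2 * q) ^ 16 * (1 + l) ^ 2 / 2 ^ l) := by
    gcongr
  calc (8 * (1 + 2 ^ (l + 1)) * (T * P ^ 2 * (H + L) ^ 3 / s) + 1) *
        (8 * (C * q' ^ 16 * (1 + Real.log (2 ^ l)) ^ 2 / 2 ^ l))
      ≤ (27 * 2 ^ l * q ^ 4) * (8 * (C * (2 * q) ^ 16 * (1 + l) ^ 2 / 2 ^ l)) :=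
        mul_le_mul hfirst hsecond (by positivity) (by positivity)
    _ = 216 * 65536 * C * q ^ 20 * (1 + l) ^ 2 := by
        field_simp
        ring

/-- class with huge `gs` -/
lemma class_top (H3 : S_Small) (A₀ : Fin m → Fin n → ℝ) (b₀ : Fin m → ℝ) (c₀ : Fin n → ℝ)
    (s L T : ℝ) (hs : 0 < s) (r : ℕ) (hr : ((m : ℝ) + n + 1) ^ 4 / s ≤ 2 ^ r) :
    ∑ p ∈ Bases m n, PB p (fun f h =>
      {ω | Box L ω ∧ 2 ^ (m + n + r) ≤ gs (dA A₀ s ω) f h ∧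
        ∃ t : ℝ, 0 ≤ t ∧ t ≤ T ∧
          WO (dA A₀ s ω) (fun i => dB b₀ s ω i + t) (fun j => dC c₀ s ω j - t) f h}) ≤ 1 := by
  have hm0 : (0 : ℝ) ≤ m := Nat.cast_nonneg m
  have hn0 : (0 : ℝ) ≤ n := Nat.cast_nonneg n
  have key : ∀ p ∈ Bases m n, PB p (fun f h =>
      {ω | Box L ω ∧ 2 ^ (m + n + r) ≤ gs (dA A₀ s ω) f h ∧
        ∃ t : ℝ, 0 ≤ t ∧ t ≤ T ∧
          WO (dA A₀ s ω) (fun i => dB b₀ s ω i + t) (fun j => dC c₀ s ω j - t) f h}) ≤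
      ENNReal.ofReal (((m : ℝ) + n + 1) ^ 4 / (s * 2 ^ (m + n + r))) := by
    intro p hp
    obtain ⟨e, hPB⟩ := PB_of_mem hp (fun f h =>
      {ω : Idx m n → ℝ | Box L ω ∧ 2 ^ (m + n + r) ≤ gs (dA A₀ s ω) f h ∧
        ∃ t : ℝ, 0 ≤ t ∧ t ≤ T ∧
          WO (dA A₀ s ω) (fun i => dB b₀ s ω i + t) (fun j => dC c₀ s ω j - t) f h})
    rw [hPB]
    refine (measure_mono ?_).trans ((H3 m n _ (fI p.1) (hJ p.1 p.2 e) A₀ s (2 ^ (m + n + r))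
      (fI_injective _) (hJ_injective _ _ e) hs (by positivity)).trans ?_)
    · rintro ω ⟨-, h1, t, -, -, hW⟩
      exact ⟨hW.1, h1⟩
    · refine ENNReal.ofReal_le_ofReal ?_
      have hk : (p.1.card : ℝ) ≤ (m : ℝ) + n + 1 := by
        have h1 : p.1.card ≤ m := by simpa using Finset.card_le_univ p.1
        have h2 : (p.1.card : ℝ) ≤ m := by exact_mod_cast h1
        linarith
      gcongr
  refine (Finset.sum_le_sum key).trans ?_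
  rw [Finset.sum_const, nsmul_eq_mul]
  have hcard : ((Bases m n).card : ENNReal) ≤ ENNReal.ofReal (2 ^ (m + n)) := by
    have h1 : (Bases m n).card ≤ 2 ^ (m + n) := by
      refine (Finset.card_le_univ _).trans ?_
      rw [Fintype.card_prod, Fintype.card_finset, Fintype.card_finset, Fintype.card_fin,
        Fintype.card_fin, pow_add]
    rw [← ENNReal.ofReal_natCast]
    refine ENNReal.ofReal_le_ofReal ?_
    exact_mod_cast h1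
  refine (mul_le_mul_left hcard _).trans ?_
  rw [← ENNReal.ofReal_mul (by positivity), ← ENNReal.ofReal_one]
  refine ENNReal.ofReal_le_ofReal ?_
  have e : (2 : ℝ) ^ (m + n) * (((m : ℝ) + n + 1) ^ 4 / (s * 2 ^ (m + n + r))) =
      (((m : ℝ) + n + 1) ^ 4 / s) / 2 ^ r := by
    rw [pow_add 2 (m + n) r]; field_simp
  rw [e, div_le_one (by positivity)]
  exact hr

theorem count (H1 : S_Shear) (H2 : S_Cond) (H3 : S_Small) (H4 : S_Unique) : S_Count := by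
  obtain ⟨C, hC, HC⟩ := H2
  refine ⟨144 + 216 * 65536 * C * 448 + 1, by positivity, ?_⟩
  intro m n A₀ b₀ c₀ s H L T hs hs1 hH hL hT hBD
  obtain ⟨q1, q2, q3, q4, q5, q6⟩ := q_facts m n H L T s hs hs1 hH hL hT
  obtain ⟨q, hq⟩ : ∃ q : ℝ, q = Q m n (H + T) L s := ⟨_, rfl⟩
  have hm0 : (0 : ℝ) ≤ m := Nat.cast_nonneg m
  have hn0 : (0 : ℝ) ≤ n := Nat.cast_nonneg n
  obtain ⟨r, hr⟩ : ∃ r : ℕ, r = 4 * ⌈q⌉₊ := ⟨_, rfl⟩
  obtain ⟨M, hM⟩ : ∃ M : ℕ, M = m + n + r := ⟨_, rfl⟩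
  have hq1 : 1 ≤ q := by rw [hq]; exact q1
  have hr2 : ((m : ℝ) + n + 1) ^ 4 / s ≤ 2 ^ r := by
    refine q5.trans ?_
    rw [← hq, hr, mul_comm, pow_mul]
    refine pow_le_pow_left₀ (by linarith) ?_ 4
    have h1 : q ≤ ⌈q⌉₊ := Nat.le_ceil q
    have h2 : ((⌈q⌉₊ : ℕ) : ℝ) ≤ ((2 ^ ⌈q⌉₊ : ℕ) : ℝ) := by
      exact_mod_cast (Nat.lt_two_pow_self).le
    push_cast at h2
    linarith
  -- split into classes
  have hsplit : ∀ p ∈ Bases m n, PB p (fun f h => {ω | Box L ω ∧ ∃ t : ℝ, 0 ≤ t ∧ t ≤ T ∧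
        WO (dA A₀ s ω) (fun i => dB b₀ s ω i + t) (fun j => dC c₀ s ω j - t) f h}) ≤
      PB p (fun f h =>
        {ω | Box L ω ∧ 0 ≤ gs (dA A₀ s ω) f h ∧ gs (dA A₀ s ω) f h ≤ 1 ∧
        ∃ t : ℝ, 0 ≤ t ∧ t ≤ T ∧
          WO (dA A₀ s ω) (fun i => dB b₀ s ω i + t) (fun j => dC c₀ s ω j - t) f h}) +
      ∑ l ∈ Finset.range M, PB p (fun f h =>
        {ω | Box L ω ∧ 2 ^ l ≤ gs (dA A₀ s ω) f h ∧ gs (dA A₀ s ω) f h ≤ 2 ^ (l + 1) ∧
        ∃ t : ℝ, 0 ≤ t ∧ t ≤ T ∧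
          WO (dA A₀ s ω) (fun i => dB b₀ s ω i + t) (fun j => dC c₀ s ω j - t) f h}) +
      PB p (fun f h =>
        {ω | Box L ω ∧ 2 ^ M ≤ gs (dA A₀ s ω) f h ∧
        ∃ t : ℝ, 0 ≤ t ∧ t ≤ T ∧
          WO (dA A₀ s ω) (fun i => dB b₀ s ω i + t) (fun j => dC c₀ s ω j - t) f h}) := by
    intro p hp
    have e : p.2.card = p.1.card := by simpa [Bases] using hp
    unfold PB
    simp only [dif_pos e]
    refine le_trans (measure_mono ?_) ((measure_union_le _ _).trans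
      (add_le_add_left ((measure_union_le _ _).trans
        (add_le_add_right (measure_biUnion_finset_le (Finset.range M) (fun l =>
        {ω : Idx m n → ℝ | Box L ω ∧ 2 ^ l ≤ gs (dA A₀ s ω) (fI p.1) (hJ p.1 p.2 e) ∧
          gs (dA A₀ s ω) (fI p.1) (hJ p.1 p.2 e) ≤ 2 ^ (l + 1) ∧
        ∃ t : ℝ, 0 ≤ t ∧ t ≤ T ∧
          WO (dA A₀ s ω) (fun i => dB b₀ s ω i + t) (fun j => dC c₀ s ω j - t) (fI p.1)
            (hJ p.1 p.2 e)})) _)) _))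
    rintro ω ⟨h1, h2⟩
    rcases le_or_gt (gs (dA A₀ s ω) (fI p.1) (hJ p.1 p.2 e)) 1 with hg | hg
    · left; left
      exact ⟨h1, gs_nonneg _ _ _, hg, h2⟩
    · rcases le_or_gt (2 ^ M) (gs (dA A₀ s ω) (fI p.1) (hJ p.1 p.2 e)) with hg2 | hg2
      · right
        exact ⟨h1, hg2, h2⟩
      · left; right
        obtain ⟨l, hl1, hl2⟩ := exists_nat_pow_near hg.le (by norm_num : (1 : ℝ) < 2)
        rw [Set.mem_iUnion₂]
        refine ⟨l, ?_, h1, hl1, hl2.le, h2⟩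
        rw [Finset.mem_range]
        by_contra hlM
        have : (2 : ℝ) ^ M ≤ 2 ^ l := pow_le_pow_right₀ (by norm_num) (not_lt.1 hlM)
        linarith
  refine (Finset.sum_le_sum hsplit).trans ?_
  rw [Finset.sum_add_distrib, Finset.sum_add_distrib, Finset.sum_comm]
  have hb := class_base H1 H4 A₀ b₀ c₀ s H L T hs hs1 hH hL hT hBD
  have hl := fun l => class_l H1 C hC HC A₀ b₀ c₀ s H L T hs hs1 hH hL hT hBD l
  have ht := class_top H3 A₀ b₀ c₀ s L T hs r hr2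
  rw [← hM] at ht
  refine (add_le_add (add_le_add hb (Finset.sum_le_sum fun l _ => hl l)) ht).trans ?_
  rw [← hq]
  have hsum : ∑ l ∈ Finset.range M, ENNReal.ofReal (216 * 65536 * C * q ^ 20 * (1 + l) ^ 2) ≤
      ENNReal.ofReal (216 * 65536 * C * 448 * q ^ 23) := by
    rw [← ENNReal.ofReal_sum_of_nonneg (fun l _ => by positivity)]
    refine ENNReal.ofReal_le_ofReal ?_
    have hM7 : (M : ℝ) ≤ 7 * q := by
      rw [hM, hr]
      push_cast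
      have h1 : ((⌈q⌉₊ : ℕ) : ℝ) ≤ q + 1 := (Nat.ceil_lt_add_one (by linarith)).le
      have h2 : (m : ℝ) + n + 1 ≤ q := by rw [hq]; exact q6
      have h3 : 3 ≤ q := by
        rw [hq]
        unfold Q
        rw [abs_of_pos hs, le_div_iff₀ hs]
        have : 3 ≤ H + T + L := by linarith
        nlinarith
      linarith
    calc ∑ l ∈ Finset.range M, 216 * 65536 * C * q ^ 20 * (1 + (l : ℝ)) ^ 2
        ≤ ∑ l ∈ Finset.range M, 216 * 65536 * C * q ^ 20 * (8 * q) ^ 2 := by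
          refine Finset.sum_le_sum fun l hl => ?_
          have h1 : (l : ℝ) ≤ M := by exact_mod_cast (Finset.mem_range.1 hl).le
          have h2 : 1 + (l : ℝ) ≤ 8 * q := by linarith
          gcongr
      _ = (M : ℝ) * (216 * 65536 * C * q ^ 20 * (8 * q) ^ 2) := by
          rw [Finset.sum_const, Finset.card_range, nsmul_eq_mul]
      _ ≤ (7 * q) * (216 * 65536 * C * q ^ 20 * (8 * q) ^ 2) := by gcongr
      _ = 216 * 65536 * C * 448 * q ^ 23 := by ring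
  refine (add_le_add (add_le_add le_rfl hsum) le_rfl).trans ?_
  rw [← ENNReal.ofReal_one, ← ENNReal.ofReal_add (by positivity) (by positivity),
    ← ENNReal.ofReal_add (by positivity) (by positivity)]
  refine ENNReal.ofReal_le_ofReal ?_
  have h4 : q ^ 4 ≤ q ^ 30 := pow_le_pow_right₀ hq1 (by norm_num)
  have h23 : q ^ 23 ≤ q ^ 30 := pow_le_pow_right₀ hq1 (by norm_num)
  have h0 : 1 ≤ q ^ 30 := one_le_pow₀ hq1
  have h5 : 216 * 65536 * C * 448 * q ^ 23 ≤ 216 * 65536 * C * 448 * q ^ 30 := by gcongr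
  calc 144 * q ^ 4 + 216 * 65536 * C * 448 * q ^ 23 + 1
      ≤ 144 * q ^ 30 + 216 * 65536 * C * 448 * q ^ 30 + 1 * q ^ 30 := by linarith
    _ = (144 + 216 * 65536 * C * 448 + 1) * q ^ 30 := by ring

end W993.SD
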