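import Pool.Agent.W993.SD.Basic

/-! Project SD: dictionary between the frozen statement and `WO`; scaling of the data. -/

set_option autoImplicit false
open MeasureTheory ProbabilityTheory

namespace W993.SD

variable {m n k : ℕ}

lemma sum_supp {N : ℕ} (h : Fin k → Fin N) (hh : Function.Injective h) (F x : Fin N → ℝ)
    (hx : ∀ j, j ∉ Set.range h → x j = 0) :
    ∑ a, F (h a) * x (h a) = ∑ j, F j * x j :=
  Fintype.sum_of_injective h hh (fun a => F (h a) * x (h a)) (fun j => F j * x j)
    (fun j hj => by simp [hx j hj]) (fun _ => rfl)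

lemma card_rc (B : Finset (Fin n ⊕ Fin m)) (hB : B.card = m) :
    (colsOf B).card = (rowsOf B).card := by
  have h1 : colsOf B = B.toLeft := by
    ext j; simp [colsOf]
  have h2 : B.toRight.card + (rowsOf B).card = m := by
    have : B.toRight = (rowsOf B)ᶜ := by
      ext i; simp [rowsOf]
    rw [this, Finset.card_compl, Fintype.card_fin]
    have : (rowsOf B).card ≤ m := by simpa using Finset.card_le_univ (rowsOf B)
    omega
  have h3 := B.card_toLeft_add_card_toRight
  rw [h1]; omega

theorem dict : S_Dict := by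
  intro m n A b c B hB
  obtain ⟨hcard, hLI, t, ht, ⟨x, w, hx0, hw0, hxw, hxB, hwB⟩, ⟨y, hy0, hyc, hyB, hyB'⟩⟩ := hB
  have e := card_rc B hcard
  refine ⟨e, t, ht, ?_⟩
  have hfi := fI_injective (rowsOf B)
  have hhi := hJ_injective (rowsOf B) (colsOf B) e
  have hfr : ∀ i, i ∈ Set.range (fI (rowsOf B)) ↔ (Sum.inr i : Fin n ⊕ Fin m) ∉ B := by
    intro i; rw [range_fI]; simp [rowsOf]
  have hhr : ∀ j, j ∈ Set.range (hJ (rowsOf B) (colsOf B) e) ↔
      (Sum.inl j : Fin n ⊕ Fin m) ∈ B := by
    intro j; rw [range_hJ]; simp [colsOf]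
  generalize fI (rowsOf B) = f at hfi hfr
  generalize hJ (rowsOf B) (colsOf B) e = h at hhi hhr
  have hxs : ∀ j, j ∉ Set.range h → x j = 0 := fun j hj => hxB j (fun hc => hj ((hhr j).2 hc))
  have hys : ∀ i, i ∉ Set.range f → y i = 0 := fun i hi =>
    hyB' i (by by_contra hc; exact hi ((hfr i).2 hc))
  -- nonsingular
  have hd : (sub (fun i j => A i j) f h).det ≠ 0 := by
    intro hdet
    obtain ⟨v, hv0, hv⟩ := Matrix.exists_mulVec_eq_zero_iff.2 hdet
    apply hv0
    classical
    set xv : Fin n → ℝ := fun j => ∑ a, if h a = j then v a else 0 with hxv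
    have hxvh : ∀ a, xv (h a) = v a := by
      intro a
      simp only [hxv]
      rw [Finset.sum_eq_single a]
      · simp
      · intro a' _ ha'
        rw [if_neg]; exact fun hc => ha' (hhi hc)
      · intro hc; exact absurd (Finset.mem_univ _) hc
    have hxvn : ∀ j, j ∉ Set.range h → xv j = 0 := by
      intro j hj
      simp only [hxv]
      refine Finset.sum_eq_zero fun a _ => ?_
      rw [if_neg]; exact fun hc => hj ⟨a, hc⟩
    have hrow : ∀ a, ∑ j, A (f a) j * xv j = 0 := by
      intro a
      have h1 := congrFun hv a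
      simp only [Matrix.mulVec, dotProduct, sub, Matrix.of_apply, Pi.zero_apply] at h1
      rw [← sum_supp h hhi (fun j => A (f a) j) xv hxvn]
      simpa [hxvh] using h1
    set gg : Fin n ⊕ Fin m → ℝ := Sum.elim xv (fun i => - ∑ j, A i j * xv j) with hgg
    have hggB : ∀ q, q ∉ B → gg q = 0 := by
      rintro (j | i) hq
      · exact hxvn j (fun hc => hq ((hhr j).1 hc))
      · obtain ⟨a, ha⟩ := (hfr i).2 hq
        simp only [hgg, Sum.elim_inr]
        rw [← ha, hrow a, neg_zero]
    have hzero : ∑ q : B, gg q.1 • (Matrix.transpose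
        (Matrix.fromCols A (1 : Matrix (Fin m) (Fin m) ℝ))) q.1 = 0 := by
      have e1 : ∑ q : B, gg q.1 • (Matrix.transpose
          (Matrix.fromCols A (1 : Matrix (Fin m) (Fin m) ℝ))) q.1 =
          ∑ q ∈ B, gg q • (Matrix.transpose
            (Matrix.fromCols A (1 : Matrix (Fin m) (Fin m) ℝ))) q :=
        Finset.sum_coe_sort B (fun q => gg q • (Matrix.transpose
            (Matrix.fromCols A (1 : Matrix (Fin m) (Fin m) ℝ))) q)
      rw [e1, Finset.sum_subset (Finset.subset_univ B)
        (fun q _ hq => by rw [hggB q hq, zero_smul]), Fintype.sum_sum_type]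
      funext i
      simp only [Pi.add_apply, Finset.sum_apply, Pi.smul_apply, Matrix.transpose_apply,
        Matrix.fromCols_apply_inl, Matrix.fromCols_apply_inr, smul_eq_mul, hgg, Sum.elim_inl,
        Sum.elim_inr, Pi.zero_apply]
      have e2 : ∑ x : Fin m, (-∑ j, A x j * xv j) * (1 : Matrix (Fin m) (Fin m) ℝ) i x =
          -∑ j, A i j * xv j := by
        rw [Finset.sum_eq_single i]
        · simp
        · intro i' _ hi'
          rw [Matrix.one_apply_ne (Ne.symm hi'), mul_zero]
        · intro hc; exact absurd (Finset.mem_univ _) hc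
      rw [e2]
      have e3 : ∑ x : Fin n, xv x * A i x = ∑ j, A i j * xv j :=
        Finset.sum_congr rfl fun j _ => mul_comm _ _
      rw [e3]; ring
    have hall := Fintype.linearIndependent_iff.1 hLI (fun q => gg q.1) hzero
    funext a
    have hB1 : (Sum.inl (h a) : Fin n ⊕ Fin m) ∈ B := (hhr _).1 ⟨a, rfl⟩
    have := hall ⟨Sum.inl (h a), hB1⟩
    simp only [hgg, Sum.elim_inl] at this
    rw [hxvh] at this
    simpa using this
  have hxk : xk (fun i j => A i j) (fun i => b i + t) f h = fun a => x (h a) := by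
    refine xk_unique _ _ f h hd _ fun a => ?_
    have h1 := hxw (f a)
    rw [hwB (f a) ((hfr _).1 ⟨a, rfl⟩), add_zero] at h1
    rw [← h1]
    exact sum_supp h hhi (fun j => A (f a) j) x hxs
  have hyk : yk (fun i j => A i j) (fun i => c i - t) f h = fun a => y (f a) := by
    refine yk_unique _ _ f h hd _ fun a' => ?_
    have h1 := hyB (h a') ((hhr _).1 ⟨a', rfl⟩)
    rw [← h1]
    exact sum_supp f hfi (fun i => A i (h a')) y hys
  refine ⟨hd, fun a => ?_, fun a => ?_, fun i hi => ?_, fun j hj => ?_⟩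
  · rw [hxk]; exact hx0 _
  · rw [hyk]; exact hy0 _
  · rw [hxk]
    have h1 := sum_supp h hhi (fun j => A i j) x hxs
    simp only at h1 ⊢
    rw [h1]
    have := hxw i
    linarith [hw0 i]
  · rw [hyk]
    have h1 := sum_supp f hfi (fun i => A i j) y hys
    simp only at h1 ⊢
    rw [h1]
    exact hyc j

lemma FB_scale_sub (A : Matrix (Fin m) (Fin n) ℝ) (b : Fin m → ℝ) (c : Fin n → ℝ) (l : ℝ)
    (hl : 0 < l) : FB A b c ⊆ FB (l • A) (l • b) (l • c) := by
  rintro B ⟨hcard, hLI, t, ht, ⟨x, w, hx0, hw0, hxw, hxB, hwB⟩, ⟨y, hy0, hyc, hyB, hyB'⟩⟩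
  refine ⟨hcard, ?_, l * t, by positivity, ⟨x, fun i => l * w i, hx0, fun i => ?_, fun i => ?_,
    hxB, fun i hi => ?_⟩, ⟨y, hy0, fun j => ?_, fun j hj => ?_, hyB'⟩⟩
  · have hlu : l ≠ 0 := hl.ne'
    let u : B → ℝˣ := fun q => Sum.elim (fun _ => Units.mk0 l hlu) (fun _ => 1) q.1
    have := hLI.units_smul u
    convert this using 1
    funext q
    obtain ⟨q, hq⟩ := q
    rcases q with j | i
    · funext i'
      simp only [Matrix.transpose_apply, Matrix.fromCols_apply_inl, Matrix.smul_apply, Pi.smul_apply',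
        u, Sum.elim_inl, Pi.smul_apply, Units.smul_def, Units.val_mk0]
    · funext i'
      simp only [Matrix.transpose_apply, Matrix.fromCols_apply_inr, Pi.smul_apply',
        u, Sum.elim_inr, Pi.smul_apply, one_smul]
  · exact mul_nonneg hl.le (hw0 i)
  · have := hxw i
    simp only [Matrix.smul_apply, smul_eq_mul, Pi.smul_apply]
    calc ∑ j, l * A i j * x j + l * w i = l * (∑ j, A i j * x j + w i) := by
          rw [mul_add, Finset.mul_sum]
          congr 1
          exact Finset.sum_congr rfl fun j _ => by ring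
      _ = l * b i + l * t := by rw [this]; ring
  · simp only [hwB i hi, mul_zero]
  · have h1 := mul_le_mul_of_nonneg_left (hyc j) hl.le
    simp only [Matrix.smul_apply, smul_eq_mul, Pi.smul_apply]
    calc l * c j - l * t = l * (c j - t) := by ring
      _ ≤ l * ∑ i, A i j * y i := h1
      _ = ∑ i, l * A i j * y i := by
          rw [Finset.mul_sum]
          exact Finset.sum_congr rfl fun j _ => by ring
  · have h1 := hyB j hj
    simp only [Matrix.smul_apply, smul_eq_mul, Pi.smul_apply]
    calc ∑ i, l * A i j * y i = l * ∑ i, A i j * y i := by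
          rw [Finset.mul_sum]
          exact Finset.sum_congr rfl fun j _ => by ring
      _ = l * c j - l * t := by rw [h1]; ring

theorem scale : S_Scale := by
  intro m n A b c l hl
  refine Set.Subset.antisymm ?_ (FB_scale_sub A b c l hl)
  have h1 := FB_scale_sub (l • A) (l • b) (l • c) l⁻¹ (inv_pos.2 hl)
  simpa [smul_smul, inv_mul_cancel₀ hl.ne'] using h1

end W993.SD
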