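import Pool.Agent.W993.SD.Basic

/-! Project SD: the normalised final bound. -/

set_option autoImplicit false
open MeasureTheory ProbabilityTheory

namespace W993.SD

variable {m n : ℕ}

/-- the event of a basis -/
noncomputable def Ev (p : Finset (Fin m) × Finset (Fin n))
    (E : (f : Fin p.1.card → Fin m) → (h : Fin p.1.card → Fin n) → Set (Idx m n → ℝ)) :
    Set (Idx m n → ℝ) :=
  if e : p.2.card = p.1.card then E (fI p.1) (hJ p.1 p.2 e) else ∅

lemma PB_eq (p : Finset (Fin m) × Finset (Fin n))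
    (E : (f : Fin p.1.card → Fin m) → (h : Fin p.1.card → Fin n) → Set (Idx m n → ℝ)) :
    PB p E = G (Idx m n) (Ev p E) := by
  unfold PB Ev
  split_ifs <;> simp

lemma rc_injective : Function.Injective
    (fun B : Finset (Fin n ⊕ Fin m) => (rowsOf B, colsOf B)) := by
  intro B B' h
  simp only [Prod.mk.injEq] at h
  ext q
  rcases q with j | i
  · have := congrArg (fun s => j ∈ s) h.2
    simpa [colsOf] using this
  · have := congrArg (fun s => i ∈ s) h.1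
    simp only [rowsOf, Finset.mem_filter, Finset.mem_univ, true_and, eq_iff_iff] at this
    tauto

/-- for large `t` only the empty basis is optimal -/
lemma SO_empty (A : Fin m → Fin n → ℝ) (b : Fin m → ℝ) (c : Fin n → ℝ)
    (hb : ∀ i, 0 < b i) (hc : ∀ j, c j < 0) (f : Fin 0 → Fin m) (h : Fin 0 → Fin n) :
    SO A b c f h := by
  refine ⟨?_, fun a => a.elim0, fun a => a.elim0, fun i _ => ?_, fun j _ => ?_⟩
  · simp
  · simpa using hb i
  · simpa using hc j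

open Classical in
lemma pointwise (H3 : S_Dict) (H4 : S_Unique) (A : Fin m → Fin n → ℝ) (b : Fin m → ℝ)
    (c : Fin n → ℝ) (T Λ : ℝ) (hT : Λ < T) (hBD : BD Λ A b c) (_hΛ : 0 ≤ Λ) :
    (FB (Matrix.of A) b c).ncard ≤
      1 + ((Bases m n).filter fun p => ∃ e : p.2.card = p.1.card, ∃ t : ℝ, 0 ≤ t ∧ t ≤ T ∧
        WO A (fun i => b i + t) (fun j => c j - t) (fI p.1) (hJ p.1 p.2 e)).card := by
  classical
  set S := (Bases m n).filter fun p => ∃ e : p.2.card = p.1.card, ∃ t : ℝ, 0 ≤ t ∧ t ≤ T ∧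
        WO A (fun i => b i + t) (fun j => c j - t) (fI p.1) (hJ p.1 p.2 e) with hS
  set φ := (fun B : Finset (Fin n ⊕ Fin m) => (rowsOf B, colsOf B)) with hφ
  have hsub : φ '' FB (Matrix.of A) b c ⊆
      ((insert ((∅ : Finset (Fin m)), (∅ : Finset (Fin n))) S : Finset _) : Set _) := by
    rintro _ ⟨B, hB, rfl⟩
    obtain ⟨e, t, ht, hW⟩ := H3 m n (Matrix.of A) b c B hB
    rw [Finset.coe_insert, Set.mem_insert_iff]
    rcases le_or_gt t T with htT | htT
    · right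
      simp only [hS, Finset.coe_filter, Set.mem_ofPred_eq]
      exact ⟨by simp [Bases, hφ, e], e, t, ht, htT, hW⟩
    · left
      have hSO : SO A (fun i => b i + t) (fun j => c j - t) (Fin.elim0 : Fin 0 → Fin m)
          (Fin.elim0 : Fin 0 → Fin n) := by
        refine SO_empty _ _ _ (fun i => ?_) (fun j => ?_) _ _
        · have := (abs_le.1 (hBD.2.1 i)).1; linarith
        · have := (abs_le.1 (hBD.2.2 j)).2; linarith
      obtain ⟨h1, h2⟩ := H4 m n 0 _ A _ _ _ _ (fI (rowsOf B)) (hJ (rowsOf B) (colsOf B) e)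
        (fun a => a.elim0) (fun a => a.elim0) (fI_injective _) (hJ_injective _ _ _) hSO hW
      rw [range_fI] at h1
      rw [range_hJ] at h2
      have e1 : rowsOf B = ∅ := by
        rw [← Finset.coe_eq_empty, ← h1]; exact Set.range_eq_empty _
      have e2 : colsOf B = ∅ := by
        rw [← Finset.coe_eq_empty, ← h2]; exact Set.range_eq_empty _
      simp [hφ, e1, e2]
  calc (FB (Matrix.of A) b c).ncard = (φ '' FB (Matrix.of A) b c).ncard :=
        (Set.ncard_image_of_injective _ rc_injective).symm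
    _ ≤ ((insert ((∅ : Finset (Fin m)), (∅ : Finset (Fin n))) S : Finset _) : Set _).ncard :=
        Set.ncard_le_ncard hsub (Finset.finite_toSet _)
    _ = (insert ((∅ : Finset (Fin m)), (∅ : Finset (Fin n))) S : Finset _).card :=
        Set.ncard_coe_finset _
    _ ≤ S.card + 1 := Finset.card_insert_le _ _
    _ = 1 + S.card := add_comm _ _

lemma ncard_FB_le (A : Matrix (Fin m) (Fin n) ℝ) (b : Fin m → ℝ) (c : Fin n → ℝ) :
    (FB A b c).ncard ≤ 2 ^ (m + n) := by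
  calc (FB A b c).ncard ≤ (Set.univ : Set (Finset (Fin n ⊕ Fin m))).ncard :=
        Set.ncard_le_ncard (Set.subset_univ _) Set.finite_univ
    _ = 2 ^ (m + n) := by
        rw [Set.ncard_univ, Nat.card_eq_fintype_card, Fintype.card_finset, Fintype.card_sum,
          Fintype.card_fin, Fintype.card_fin, add_comm]

/-- numerical estimate of the exceptional event -/
lemma exc_num (P : ℝ) (hP : 1 ≤ P) (N : ℕ) (hN : (N : ℝ) ≤ P) (c : ℝ) (hc : c ≤ P ^ 2)
    (hc0 : 0 ≤ c) :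
    (2 : ℝ) ^ N * (2 * c * Real.exp (-((4 * P) ^ 2 / 2))) ≤ 1 := by
  have h2 : (2 : ℝ) ^ N ≤ Real.exp P := by
    have : (2 : ℝ) ≤ Real.exp 1 := by
      have := Real.add_one_le_exp (1 : ℝ); linarith
    calc (2 : ℝ) ^ N ≤ (Real.exp 1) ^ N := pow_le_pow_left₀ (by norm_num) this N
      _ = Real.exp N := by rw [← Real.exp_nat_mul]; simp
      _ ≤ Real.exp P := Real.exp_le_exp.2 hN
  have hPe : P ≤ Real.exp P := by have := Real.add_one_le_exp P; linarith
  have hc2 : c ≤ Real.exp P * Real.exp P := by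
    calc c ≤ P ^ 2 := hc
      _ = P * P := by ring
      _ ≤ Real.exp P * Real.exp P := mul_le_mul hPe hPe (by linarith) (Real.exp_pos _).le
  have h3 : (2 : ℝ) ≤ Real.exp P := by
    have := Real.add_one_le_exp P; linarith
  calc (2 : ℝ) ^ N * (2 * c * Real.exp (-((4 * P) ^ 2 / 2)))
      ≤ Real.exp P * (Real.exp P * (Real.exp P * Real.exp P) *
          Real.exp (-((4 * P) ^ 2 / 2))) := by
        refine mul_le_mul h2 ?_ (by positivity) (Real.exp_pos _).le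
        refine mul_le_mul_of_nonneg_right ?_ (Real.exp_pos _).le
        exact mul_le_mul h3 hc2 hc0 (Real.exp_pos _).le
    _ = Real.exp (P + (P + (P + P) + (-((4 * P) ^ 2 / 2)))) := by
        rw [Real.exp_add, Real.exp_add, Real.exp_add, Real.exp_add]
    _ ≤ Real.exp 0 := by
        refine Real.exp_le_exp.2 ?_
        nlinarith
    _ = 1 := Real.exp_zero

/-- the event of the count -/
def EvT (A₀ : Fin m → Fin n → ℝ) (b₀ : Fin m → ℝ) (c₀ : Fin n → ℝ) (s L T : ℝ)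
    (p : Finset (Fin m) × Finset (Fin n)) (f : Fin p.1.card → Fin m)
    (h : Fin p.1.card → Fin n) : Set (Idx m n → ℝ) :=
    {ω | Box L ω ∧ ∃ t : ℝ, 0 ≤ t ∧ t ≤ T ∧
        WO (dA A₀ s ω) (fun i => dB b₀ s ω i + t) (fun j => dC c₀ s ω j - t) f h}

lemma hpt (H3 : S_Dict) (H4 : S_Unique) (A₀ : Fin m → Fin n → ℝ) (b₀ : Fin m → ℝ)
    (c₀ : Fin n → ℝ) (s L T : ℝ) (hs : 0 < s) (hs1 : s ≤ 1) (hBD : BD 1 A₀ b₀ c₀)
    (hL : 0 ≤ L) (hT : 1 + L < T) (X : Set (Idx m n → ℝ))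
    (hX : {ω | ¬ Box L ω} ⊆ X) (Y : Finset (Fin m) × Finset (Fin n) → Set (Idx m n → ℝ))
    (hY : ∀ p, Ev p (EvT A₀ b₀ c₀ s L T p) ⊆ Y p) (ω : Idx m n → ℝ) :
      ((FB (Matrix.of (dA A₀ s ω)) (dB b₀ s ω) (dC c₀ s ω)).ncard : ENNReal) ≤
      X.indicator (fun _ => (2 : ENNReal) ^ (m + n)) ω +
        (1 + ∑ p ∈ Bases m n, (Y p).indicator (fun _ => (1 : ENNReal)) ω) := by
  classical
  by_cases hω : Box L ω
  · have hs' : |s| ≤ 1 := by rw [abs_of_pos hs]; exact hs1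
    have hB := BD_data (ω := ω) hs' hL hBD hω
    have h1 := pointwise H3 H4 (dA A₀ s ω) (dB b₀ s ω) (dC c₀ s ω) T (1 + L) hT hB
      (by linarith)
    refine le_trans (Nat.cast_le.2 h1) ?_
    refine le_trans ?_ le_add_self
    rw [Nat.cast_add, Nat.cast_one]
    refine add_le_add_right ?_ _
    rw [Finset.card_eq_sum_ones, Nat.cast_sum, Finset.sum_filter]
    refine Finset.sum_le_sum fun p _ => ?_
    split_ifs with hp
    · obtain ⟨e, ht⟩ := hp
      have : ω ∈ Y p := by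
        refine hY p ?_
        unfold Ev
        rw [dif_pos e]
        exact ⟨hω, ht⟩
      rw [Set.indicator_of_mem this]
      simp
    · exact bot_le
  · have : ω ∈ X := hX hω
    rw [Set.indicator_of_mem this]
    refine le_trans ?_ le_self_add
    refine (Nat.cast_le.2 (ncard_FB_le _ _ _)).trans ?_
    push_cast
    exact le_rfl

lemma hint (H3 : S_Dict) (H4 : S_Unique) (A₀ : Fin m → Fin n → ℝ) (b₀ : Fin m → ℝ)
    (c₀ : Fin n → ℝ) (s L T : ℝ) (hs : 0 < s) (hs1 : s ≤ 1) (hBD : BD 1 A₀ b₀ c₀)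
    (hL : 0 ≤ L) (hT : 1 + L < T) :
    ∫⁻ ω, ((FB (Matrix.of (dA A₀ s ω)) (dB b₀ s ω) (dC c₀ s ω)).ncard : ENNReal)
        ∂(G (Idx m n)) ≤ 2 ^ (m + n) * G (Idx m n) {ω | ¬ Box L ω} +
        (1 + ∑ p ∈ Bases m n, PB p (EvT A₀ b₀ c₀ s L T p)) := by
  have h1 := hpt H3 H4 A₀ b₀ c₀ s L T hs hs1 hBD hL hT
    (toMeasurable (G (Idx m n)) {ω | ¬ Box L ω}) (subset_toMeasurable _ _)
    (fun p => toMeasurable (G (Idx m n)) (Ev p (EvT A₀ b₀ c₀ s L T p)))
    (fun p => subset_toMeasurable _ _)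
  refine (lintegral_mono h1).trans ?_
  have hXm : MeasurableSet (toMeasurable (G (Idx m n)) {ω : Idx m n → ℝ | ¬ Box L ω}) :=
    measurableSet_toMeasurable _ _
  have hYm : ∀ p, MeasurableSet (toMeasurable (G (Idx m n)) (Ev p (EvT A₀ b₀ c₀ s L T p))) :=
    fun p => measurableSet_toMeasurable _ _
  rw [lintegral_add_left (measurable_const.indicator hXm),
    lintegral_add_left measurable_const, lintegral_finsetSum _
    (fun p _ => measurable_const.indicator (hYm p))]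
  refine add_le_add ?_ (add_le_add ?_ ?_)
  · rw [lintegral_indicator_const hXm, measure_toMeasurable]
  · simp
  · refine Finset.sum_le_sum fun p _ => ?_
    rw [lintegral_indicator_const (hYm p), one_mul, measure_toMeasurable, PB_eq]

lemma hexc (H2 : S_Tail) (m n : ℕ) :
    (2 : ENNReal) ^ (m + n) * G (Idx m n) {ω | ¬ Box (4 * ((m : ℝ) + n + 1)) ω} ≤ 1 := by
  have hm0 : (0 : ℝ) ≤ m := Nat.cast_nonneg m
  have hn0 : (0 : ℝ) ≤ n := Nat.cast_nonneg n
  have hcardI : ((Fintype.card (Idx m n) : ℕ) : ℝ) ≤ ((m : ℝ) + n + 1) ^ 2 := by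
    have : Fintype.card (Idx m n) = m * n + (m + n) := by
      simp [Idx, Fintype.card_sum, Fintype.card_prod]
    rw [this]
    push_cast
    nlinarith
  have hr : (0 : ℝ) ≤ 2 * Fintype.card (Idx m n) *
      Real.exp (-((4 * ((m : ℝ) + n + 1)) ^ 2 / 2)) := by positivity
  calc (2 : ENNReal) ^ (m + n) * G (Idx m n) {ω | ¬ Box (4 * ((m : ℝ) + n + 1)) ω}
      ≤ (2 : ENNReal) ^ (m + n) * ENNReal.ofReal
        (2 * Fintype.card (Idx m n) * Real.exp (-((4 * ((m : ℝ) + n + 1)) ^ 2 / 2))) :=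
        mul_le_mul_right (H2 _ _ (by linarith)) _
    _ = ENNReal.ofReal ((2 : ℝ) ^ (m + n) *
        (2 * Fintype.card (Idx m n) * Real.exp (-((4 * ((m : ℝ) + n + 1)) ^ 2 / 2)))) := by
        rw [ENNReal.ofReal_mul (by positivity : (0 : ℝ) ≤ 2 ^ (m + n)),
          ENNReal.ofReal_pow (by norm_num : (0 : ℝ) ≤ 2), ENNReal.ofReal_ofNat]
    _ ≤ ENNReal.ofReal 1 := by
        refine ENNReal.ofReal_le_ofReal ?_
        refine exc_num _ (by linarith) (m + n) ?_ _ hcardI (by positivity)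
        push_cast; linarith
    _ = 1 := ENNReal.ofReal_one

lemma hQ (m n : ℕ) (s : ℝ) (hs : 0 < s) (hs1 : s ≤ 1) :
    Q m n (1 + (4 * ((m : ℝ) + n + 1) + 2)) (4 * ((m : ℝ) + n + 1)) s ≤
      11 * ((m : ℝ) + n + 1 / s) ^ 3 := by
  have hm0 : (0 : ℝ) ≤ m := Nat.cast_nonneg m
  have hn0 : (0 : ℝ) ≤ n := Nat.cast_nonneg n
  have h1s : 1 ≤ 1 / s := by rw [le_div_iff₀ hs]; linarith
  obtain ⟨P, hP⟩ : ∃ P : ℝ, P = (m : ℝ) + n + 1 := ⟨_, rfl⟩
  obtain ⟨W, hW⟩ : ∃ W : ℝ, W = (m : ℝ) + n + 1 / s := ⟨_, rfl⟩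
  obtain ⟨i, hi⟩ : ∃ i : ℝ, i = 1 / s := ⟨_, rfl⟩
  have e : Q m n (1 + (4 * ((m : ℝ) + n + 1) + 2)) (4 * ((m : ℝ) + n + 1)) s =
      (P * (3 + 8 * P)) * i := by
    unfold Q
    rw [abs_of_pos hs, ← hP, hi]; ring
  rw [e, ← hW]
  have hPW : P ≤ W := by rw [hP, hW]; linarith
  have hiW : i ≤ W := by rw [hi, hW]; linarith
  have hi1 : 1 ≤ i := by rw [hi]; exact h1s
  have hP1 : 1 ≤ P := by rw [hP]; linarith
  have h1 : P * (3 + 8 * P) ≤ 11 * W ^ 2 := by
    have h3 : P * (3 + 8 * P) ≤ 11 * P ^ 2 := by nlinarith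
    have h2 : P ^ 2 ≤ W ^ 2 := pow_le_pow_left₀ (by linarith) hPW 2
    linarith
  calc (P * (3 + 8 * P)) * i ≤ (11 * W ^ 2) * W :=
        mul_le_mul h1 hiW (by linarith) (by positivity)
    _ = 11 * W ^ 3 := by ring

theorem norm (H1 : S_Count) (H2 : S_Tail) (H3 : S_Dict) (H4 : S_Unique) : S_Norm := by
  obtain ⟨C, hC, H⟩ := H1
  refine ⟨2 + C * 11 ^ 30, by positivity, 90, ?_⟩
  intro m n A₀ b₀ c₀ s hs hs1 hBD
  have hm0 : (0 : ℝ) ≤ m := Nat.cast_nonneg m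
  have hn0 : (0 : ℝ) ≤ n := Nat.cast_nonneg n
  obtain ⟨L, hL⟩ : ∃ L : ℝ, L = 4 * ((m : ℝ) + n + 1) := ⟨_, rfl⟩
  have hL4 : 4 ≤ L := by rw [hL]; linarith
  have hcount := H m n A₀ b₀ c₀ s 1 L (L + 2) hs hs1 le_rfl (by linarith) (by linarith) hBD
  have h1 := hint H3 H4 A₀ b₀ c₀ s L (L + 2) hs hs1 hBD (by linarith) (by linarith)
  refine h1.trans ?_
  have h1s : 1 ≤ 1 / s := by rw [le_div_iff₀ hs]; linarith
  have hexc' := hexc H2 m n
  rw [← hL] at hexc'
  have hQ1 := hQ m n s hs hs1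
  rw [← hL] at hQ1
  have hQ0 : 0 ≤ Q m n (1 + (L + 2)) L s := by
    unfold Q
    have : 0 ≤ 1 + (L + 2) + L := by linarith
    positivity
  obtain ⟨W, hW⟩ : ∃ W : ℝ, W = (m : ℝ) + n + 1 / s := ⟨_, rfl⟩
  have hW1 : 1 ≤ W := by rw [hW]; linarith
  rw [← hW] at hQ1 ⊢
  refine (add_le_add hexc' (add_le_add_right hcount 1)).trans ?_
  have e2 : (1 : ENNReal) + (1 + ENNReal.ofReal (C * Q m n (1 + (L + 2)) L s ^ 30)) =
      ENNReal.ofReal (2 + C * Q m n (1 + (L + 2)) L s ^ 30) := by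
    rw [ENNReal.ofReal_add (by norm_num) (by positivity), ← add_assoc]
    congr 1
    rw [show (2 : ℝ) = 1 + 1 by norm_num, ENNReal.ofReal_add (by norm_num) (by norm_num),
      ENNReal.ofReal_one]
  refine e2.le.trans (ENNReal.ofReal_le_ofReal ?_)
  have h3 : Q m n (1 + (L + 2)) L s ^ 30 ≤ 11 ^ 30 * W ^ 90 := by
    calc Q m n (1 + (L + 2)) L s ^ 30 ≤ (11 * W ^ 3) ^ 30 := pow_le_pow_left₀ hQ0 hQ1 30
      _ = 11 ^ 30 * W ^ 90 := by rw [mul_pow, ← pow_mul]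
  have h4 : (1 : ℝ) ≤ W ^ 90 := one_le_pow₀ hW1
  have h5 := mul_le_mul_of_nonneg_left h3 hC.le
  calc 2 + C * Q m n (1 + (L + 2)) L s ^ 30 ≤ 2 * W ^ 90 + C * (11 ^ 30 * W ^ 90) :=
        add_le_add (by linarith) h5
    _ = (2 + C * 11 ^ 30) * W ^ 90 := by ring

end W993.SD
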