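import Pool.Agent.W993.SD.Basic

/-! Project SD: the scaling step. -/

set_option autoImplicit false
open MeasureTheory ProbabilityTheory

namespace W993.SD

variable {m n k : ℕ}

lemma sum_abs_update {ι : Type} [Fintype ι] [DecidableEq ι] (ω : ι → ℝ) (c : ι) (z : ℝ) :
    ∑ i, |Function.update ω c z i - ω i| = |z - ω c| := by
  rw [Finset.sum_eq_single c]
  · simp
  · intro i _ hi
    rw [Function.update_of_ne hi]; simp
  · intro hc; exact absurd (Finset.mem_univ _) hc

/-- scale coordinate `c` by `κ` about `p ω` -/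
noncomputable def scl {ι : Type} [DecidableEq ι] (c : ι) (κ : ℝ) (p : (ι → ℝ) → ℝ)
    (ω : ι → ℝ) : ι → ℝ :=
  Function.update ω c (p ω + κ * (ω c - p ω))

lemma measurable_scl {ι : Type} [DecidableEq ι] (c : ι) (κ : ℝ) (p : (ι → ℝ) → ℝ)
    (hp : Measurable p) : Measurable (scl c κ p) := by
  unfold scl
  rw [measurable_pi_iff]
  intro i
  by_cases hi : i = c
  · subst hi
    simp only [Function.update_self]
    exact hp.add (((measurable_pi_apply i).sub hp).const_mul κ)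
  · simp only [Function.update_of_ne hi]
    exact measurable_pi_apply i

lemma dA_update (A₀ : Fin m → Fin n → ℝ) (s : ℝ) (ω : Idx m n → ℝ) (i : Fin m) (j : Fin n)
    (z : ℝ) : dA A₀ s (Function.update ω (Sum.inl (i, j)) z) =
      Function.update (dA A₀ s ω) i (Function.update (dA A₀ s ω i) j (A₀ i j + s * z)) := by
  funext i' j'
  unfold dA
  by_cases hi : i' = i
  · subst hi
    by_cases hj : j' = j
    · subst hj; simp
    · have : (Sum.inl (i', j') : Idx m n) ≠ Sum.inl (i', j) := by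
        intro h; apply hj; simpa using h
      simp [Function.update_of_ne this, Function.update_of_ne hj]
  · have : (Sum.inl (i', j') : Idx m n) ≠ Sum.inl (i, j) := by
      intro h; apply hi
      have := Sum.inl_injective h
      exact (Prod.mk.inj this).1
    simp [Function.update_of_ne this, Function.update_of_ne hi]

lemma dA_update_inr (A₀ : Fin m → Fin n → ℝ) (s : ℝ) (ω : Idx m n → ℝ) (q : Fin m ⊕ Fin n)
    (z : ℝ) : dA A₀ s (Function.update ω (Sum.inr q) z) = dA A₀ s ω := by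
  funext i j
  unfold dA
  rw [Function.update_of_ne (by simp)]

lemma dB_update (b₀ : Fin m → ℝ) (s : ℝ) (ω : Idx m n → ℝ) (i : Fin m)
    (z : ℝ) : dB b₀ s (Function.update ω (Sum.inr (Sum.inl i)) z) =
      Function.update (dB b₀ s ω) i (b₀ i + s * z) := by
  funext i'
  unfold dB
  by_cases hi : i' = i
  · subst hi; simp
  · have : (Sum.inr (Sum.inl i') : Idx m n) ≠ Sum.inr (Sum.inl i) := by
      intro h; apply hi; simpa using h
    rw [Function.update_of_ne this, Function.update_of_ne hi]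

lemma dB_update_inl (b₀ : Fin m → ℝ) (s : ℝ) (ω : Idx m n → ℝ) (q : Fin m × Fin n)
    (z : ℝ) : dB b₀ s (Function.update ω (Sum.inl q) z) = dB b₀ s ω := by
  funext i'
  unfold dB
  rw [Function.update_of_ne (by simp)]

lemma dB_update_inrr (b₀ : Fin m → ℝ) (s : ℝ) (ω : Idx m n → ℝ) (q : Fin n)
    (z : ℝ) : dB b₀ s (Function.update ω (Sum.inr (Sum.inr q)) z) = dB b₀ s ω := by
  funext i'
  unfold dB
  rw [Function.update_of_ne (by simp)]

lemma dC_update (c₀ : Fin n → ℝ) (s : ℝ) (ω : Idx m n → ℝ) (j : Fin n)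
    (z : ℝ) : dC c₀ s (Function.update ω (Sum.inr (Sum.inr j)) z) =
      Function.update (dC c₀ s ω) j (c₀ j + s * z) := by
  funext i'
  unfold dC
  by_cases hi : i' = j
  · subst hi; simp
  · have : (Sum.inr (Sum.inr i') : Idx m n) ≠ Sum.inr (Sum.inr j) := by
      intro h; apply hi; simpa using h
    rw [Function.update_of_ne this, Function.update_of_ne hi]

lemma dC_update_inl (c₀ : Fin n → ℝ) (s : ℝ) (ω : Idx m n → ℝ) (q : Fin m × Fin n)
    (z : ℝ) : dC c₀ s (Function.update ω (Sum.inl q) z) = dC c₀ s ω := by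
  funext i'
  unfold dC
  rw [Function.update_of_ne (by simp)]

lemma dC_update_inrl (c₀ : Fin n → ℝ) (s : ℝ) (ω : Idx m n → ℝ) (q : Fin m)
    (z : ℝ) : dC c₀ s (Function.update ω (Sum.inr (Sum.inl q)) z) = dC c₀ s ω := by
  funext i'
  unfold dC
  rw [Function.update_of_ne (by simp)]

theorem scaling (H1 : S_Transport) (H2 : S_ScaleVol) (H3 : S_Centre) (H4 : S_Rescale) :
    S_Scaling := by
  intro m n k f h a₀ a₀' A₀ b₀ c₀ s L R g Z hf hh hs hL hR hg hZ hZR
  set V : Set (Idx m n → ℝ) := {ω | Box (2 * L) ω ∧ SO (dA A₀ s ω) (dB b₀ s ω) (dC c₀ s ω) f h ∧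
        (xk (dA A₀ s ω) (dB b₀ s ω) f h a₀', yk (dA A₀ s ω) (dC c₀ s ω) f h a₀) ∈ Z} with hV
  set κ : ℝ := s * g / (3 * R * L) with hκ
  have hκ0 : 0 < κ := by positivity
  have hfac : 24 * R * L / (s * g) = 8 / κ := by rw [hκ]; field_simp; norm_num
  rcases lt_or_ge κ 1 with hκ1 | hκ1
  · -- trivial case
    have h1 : (1 : ENNReal) ≤ ENNReal.ofReal (24 * R * L / (s * g)) := by
      rw [← ENNReal.ofReal_one]
      refine ENNReal.ofReal_le_ofReal ?_
      rw [hfac, le_div_iff₀ hκ0]; linarith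
    calc _ ≤ G (Idx m n) V := by
          refine measure_mono ?_
          rintro ω ⟨h1, h2, -, h4⟩
          exact ⟨Box_mono (by linarith) h1, h2, h4⟩
      _ = 1 * G (Idx m n) V := (one_mul _).symm
      _ ≤ _ := mul_le_mul_left h1 _
  obtain ⟨p, q, r, hpm, hqm, hrm, hp1, hq1, hq2, hr1, hr2, hpqr⟩ := H3 m n k f h a₀ a₀' hf hh
  set p' : (Idx m n → ℝ) → ℝ := fun ω => (p (dA A₀ s ω) - A₀ (f a₀) (h a₀')) / s with hp'
  set q' : (Idx m n → ℝ) → ℝ := fun ω => (q (dA A₀ s ω) (dB b₀ s ω) - b₀ (f a₀)) / s with hq'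
  set r' : (Idx m n → ℝ) → ℝ := fun ω => (r (dA A₀ s ω) (dC c₀ s ω) - c₀ (h a₀')) / s with hr'
  set i1 : Idx m n := Sum.inl (f a₀, h a₀') with hi1
  set i2 : Idx m n := Sum.inr (Sum.inl (f a₀)) with hi2
  set i3 : Idx m n := Sum.inr (Sum.inr (h a₀')) with hi3
  have hdAm := measurable_dA (m := m) (n := n) A₀ s
  have hdBm := measurable_dB (m := m) (n := n) b₀ s
  have hdCm := measurable_dC (m := m) (n := n) c₀ s
  have hp'm : Measurable p' := ((hpm.comp hdAm).sub_const _).div_const _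
  have hq'm : Measurable q' := ((hqm.comp (hdAm.prodMk hdBm)).sub_const _).div_const _
  have hr'm : Measurable r' := ((hrm.comp (hdAm.prodMk hdCm)).sub_const _).div_const _
  have hp'i : ∀ ω z, p' (Function.update ω i1 z) = p' ω := by
    intro ω z
    simp only [hp', hi1]
    rw [dA_update, hp1]
  have hq'i : ∀ ω z, q' (Function.update ω i2 z) = q' ω := by
    intro ω z
    simp only [hq', hi2]
    rw [dA_update_inr, dB_update, hq2]
  have hr'i : ∀ ω z, r' (Function.update ω i3 z) = r' ω := by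
    intro ω z
    simp only [hr', hi3]
    rw [dA_update_inr, dC_update, hr2]
  have hq'i1 : ∀ ω z, q' (Function.update ω i1 z) = q' ω := by
    intro ω z
    simp only [hq', hi1]
    rw [dA_update, dB_update_inl, hq1]
  have hr'i1 : ∀ ω z, r' (Function.update ω i1 z) = r' ω := by
    intro ω z
    simp only [hr', hi1]
    rw [dA_update, dC_update_inl, hr1]
  have hr'i2 : ∀ ω z, r' (Function.update ω i2 z) = r' ω := by
    intro ω z
    simp only [hr', hi2]
    rw [dA_update_inr, dC_update_inrl]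
  set T : (Idx m n → ℝ) → (Idx m n → ℝ) := fun ω =>
    scl i3 κ r' (scl i2 κ q' (scl i1 κ p' ω)) with hT
  have hTm : Measurable T := (measurable_scl i3 κ r' hr'm).comp
    ((measurable_scl i2 κ q' hq'm).comp (measurable_scl i1 κ p' hp'm))
  have hκinv : ENNReal.ofReal κ⁻¹ ≤ 1 := by
    rw [← ENNReal.ofReal_one]
    exact ENNReal.ofReal_le_ofReal (inv_le_one_of_one_le₀ hκ1)
  have hvol : ∀ F : (Idx m n → ℝ) → ENNReal, Measurable F →
      ∫⁻ ω, F (T ω) ≤ ENNReal.ofReal κ⁻¹ * ∫⁻ ω, F ω := by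
    intro F hF
    have e1 : ∫⁻ ω, F (T ω) = ENNReal.ofReal κ⁻¹ * ∫⁻ ω, F (scl i3 κ r' (scl i2 κ q' ω)) :=
      H2 (Idx m n) i1 p' κ hp'm hκ1 hp'i (fun ω => F (scl i3 κ r' (scl i2 κ q' ω)))
        (hF.comp ((measurable_scl i3 κ r' hr'm).comp (measurable_scl i2 κ q' hq'm)))
    have e2 : ∫⁻ ω, F (scl i3 κ r' (scl i2 κ q' ω)) =
        ENNReal.ofReal κ⁻¹ * ∫⁻ ω, F (scl i3 κ r' ω) :=
      H2 (Idx m n) i2 q' κ hq'm hκ1 hq'i (fun ω => F (scl i3 κ r' ω))
        (hF.comp (measurable_scl i3 κ r' hr'm))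
    have e3 : ∫⁻ ω, F (scl i3 κ r' ω) = ENNReal.ofReal κ⁻¹ * ∫⁻ ω, F ω :=
      H2 (Idx m n) i3 r' κ hr'm hκ1 hr'i F hF
    rw [e1]
    refine mul_le_mul_right ?_ _
    rw [e2, e3]
    calc ENNReal.ofReal κ⁻¹ * (ENNReal.ofReal κ⁻¹ * ∫⁻ ω, F ω)
        ≤ 1 * (1 * ∫⁻ ω, F ω) := mul_le_mul' hκinv (mul_le_mul' hκinv le_rfl)
      _ = ∫⁻ ω, F ω := by rw [one_mul, one_mul]
  have hVm : MeasurableSet V := by
    refine (measurableSet_Box _).inter ((measurableSet_SO_data _ _ _ _ _ _).inter ?_)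
    exact ((measurable_xk_comp hdAm hdBm f h a₀').prodMk (measurable_yk_comp hdAm hdCm f h a₀)) hZ
  have hmain := H1 (Idx m n) T κ L V hTm hκ1 hL hVm hvol
  rw [hfac]
  refine le_trans (measure_mono ?_) hmain
  rintro ω ⟨hω, hSO, hgG, hz⟩
  have hne : (sub (dA A₀ s ω) f h)⁻¹ a₀' a₀ ≠ 0 := by
    intro h0; rw [h0, abs_zero] at hgG; linarith
  obtain ⟨c1, c2, c3⟩ := hpqr (dA A₀ s ω) (dB b₀ s ω) (dC c₀ s ω) hSO.1 hne
  obtain ⟨u, hu⟩ : ∃ u, u = ((sub (dA A₀ s ω) f h)⁻¹ a₀' a₀)⁻¹ := ⟨_, rfl⟩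
  obtain ⟨x, hx⟩ : ∃ x, x = xk (dA A₀ s ω) (dB b₀ s ω) f h a₀' := ⟨_, rfl⟩
  obtain ⟨y, hy⟩ : ∃ y, y = yk (dA A₀ s ω) (dC c₀ s ω) f h a₀ := ⟨_, rfl⟩
  rw [← hu] at c1 c2 c3
  rw [← hx] at c2
  rw [← hy] at c3
  -- the values of `T ω`
  set ω1 := scl i1 κ p' ω with hω1
  set ω2 := scl i2 κ q' ω1 with hω2
  set ω3 := scl i3 κ r' ω2 with hω3
  have hTω : T ω = ω3 := rfl
  have hv1 : p' ω + κ * (ω i1 - p' ω) = ω i1 + (κ - 1) * u / s := by
    have : ω i1 - p' ω = u / s := by
      rw [← c1]; simp only [hp', hi1, dA]; field_simp; ring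
    rw [this]
    have h2 : p' ω = ω i1 - u / s := by linarith
    rw [h2]; ring
  have hv2 : q' ω1 + κ * (ω1 i2 - q' ω1) = ω i2 + (κ - 1) * (u * x) / s := by
    have h0 : q' ω1 = q' ω := hq'i1 _ _
    have h1 : ω1 i2 = ω i2 := by
      rw [hω1, scl, Function.update_of_ne (by simp [hi1, hi2])]
    have h3 : ω i2 - q' ω = (u * x) / s := by
      rw [← c2]; simp only [hq', hi2, dB]; field_simp; ring
    rw [h0, h1, h3]
    have h2 : q' ω = ω i2 - (u * x) / s := by linarith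
    rw [h2]; ring
  have hv3 : r' ω2 + κ * (ω2 i3 - r' ω2) = ω i3 + (κ - 1) * (u * y) / s := by
    have h0 : r' ω2 = r' ω := by
      rw [hω2, scl, hr'i2, hω1, scl, hr'i1]
    have h1 : ω2 i3 = ω i3 := by
      rw [hω2, scl, Function.update_of_ne (by simp [hi2, hi3]), hω1, scl,
        Function.update_of_ne (by simp [hi1, hi3])]
    have h3 : ω i3 - r' ω = (u * y) / s := by
      rw [← c3]; simp only [hr', hi3, dC]; field_simp; ring
    rw [h0, h1, h3]
    have h2 : r' ω = ω i3 - (u * y) / s := by linarith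
    rw [h2]; ring
  have hd1 : ∑ i, |ω1 i - ω i| = |(κ - 1) * u / s| := by
    rw [hω1, scl, sum_abs_update, hv1]; congr 1; ring
  have hd2 : ∑ i, |ω2 i - ω1 i| = |(κ - 1) * (u * x) / s| := by
    have h1 : ω1 i2 = ω i2 := by
      rw [hω1, scl, Function.update_of_ne (by simp [hi1, hi2])]
    rw [hω2, scl, sum_abs_update, hv2, h1]; congr 1; ring
  have hd3 : ∑ i, |ω3 i - ω2 i| = |(κ - 1) * (u * y) / s| := by
    have h1 : ω2 i3 = ω i3 := by
      rw [hω2, scl, Function.update_of_ne (by simp [hi2, hi3]), hω1, scl,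
        Function.update_of_ne (by simp [hi1, hi3])]
    rw [hω3, scl, sum_abs_update, hv3, h1]; congr 1; ring
  -- sizes
  have hu1 : |u| ≤ 1 / g := by
    rw [hu, abs_inv, one_div]
    exact inv_anti₀ hg hgG
  have hxR : |x| ≤ R := by have := (hZR _ hz).1; rwa [← hx] at this
  have hyR : |y| ≤ R := by have := (hZR _ hz).2; rwa [← hy] at this
  have hR0 : 0 ≤ R := by linarith
  have hsum : ∑ i, |T ω i - ω i| ≤ 1 / L := by
    calc ∑ i, |T ω i - ω i| ≤ ∑ i, (|ω3 i - ω2 i| + |ω2 i - ω1 i| + |ω1 i - ω i|) := by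
          refine Finset.sum_le_sum fun i _ => ?_
          rw [hTω]
          have h1 := abs_add_le (ω3 i - ω2 i + (ω2 i - ω1 i)) (ω1 i - ω i)
          have h2 := abs_add_le (ω3 i - ω2 i) (ω2 i - ω1 i)
          have h3 : ω3 i - ω i = ω3 i - ω2 i + (ω2 i - ω1 i) + (ω1 i - ω i) := by ring
          rw [h3]; linarith
      _ = |(κ - 1) * (u * y) / s| + |(κ - 1) * (u * x) / s| + |(κ - 1) * u / s| := by
          rw [Finset.sum_add_distrib, Finset.sum_add_distrib, hd1, hd2, hd3]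
      _ = ((κ - 1) / s) * (|u| * |y| + |u| * |x| + |u|) := by
          rw [abs_div, abs_div, abs_div, abs_mul, abs_mul, abs_mul, abs_mul, abs_mul,
            abs_of_pos hs, abs_of_nonneg (by linarith : (0 : ℝ) ≤ κ - 1)]
          ring
      _ ≤ (κ / s) * (1 / g * R + 1 / g * R + 1 / g * R) := by
          have hg' : 0 ≤ 1 / g := by positivity
          have a1 : |u| * |y| ≤ 1 / g * R := mul_le_mul hu1 hyR (abs_nonneg _) hg'
          have a2 : |u| * |x| ≤ 1 / g * R := mul_le_mul hu1 hxR (abs_nonneg _) hg'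
          have a3 : |u| ≤ 1 / g * R := by
            calc |u| = |u| * 1 := (mul_one _).symm
              _ ≤ 1 / g * R := mul_le_mul hu1 hR zero_le_one hg'
          refine mul_le_mul (div_le_div_of_nonneg_right (by linarith) hs.le)
            (by linarith) (by positivity) (by positivity)
      _ = 1 / L := by
          rw [hκ]; field_simp
          norm_num
  -- the data of `T ω`
  have hdA : dA A₀ s (T ω) = Function.update (dA A₀ s ω) (f a₀)
      (Function.update (dA A₀ s ω (f a₀)) (h a₀') (dA A₀ s ω (f a₀) (h a₀') + (κ - 1) * u)) := by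
    rw [hTω, hω3, scl, hi3, dA_update_inr, hω2, scl, hi2, dA_update_inr, hω1, scl, hi1, dA_update,
      ← hi1, hv1]
    congr 2
    simp only [dA, hi1]
    field_simp
    ring
  have hdB : dB b₀ s (T ω) = Function.update (dB b₀ s ω) (f a₀)
      (dB b₀ s ω (f a₀) + (κ - 1) * (u * x)) := by
    rw [hTω, hω3, scl, hi3, dB_update_inrr, hω2, scl, hi2, dB_update, ← hi2, hv2, hω1, scl, hi1,
      dB_update_inl]
    congr 1
    simp only [dB, hi2]
    field_simp
    ring
  have hdC : dC c₀ s (T ω) = Function.update (dC c₀ s ω) (h a₀')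
      (dC c₀ s ω (h a₀') + (κ - 1) * (u * y)) := by
    rw [hTω, hω3, scl, hi3, dC_update, ← hi3, hv3, hω2, scl, hi2, dC_update_inrl, hω1, scl, hi1,
      dC_update_inl]
    congr 1
    simp only [dC, hi3]
    field_simp
    ring
  have hres := H4 m n k f h a₀ a₀' (dA A₀ s ω) (dB b₀ s ω) (dC c₀ s ω) κ hf hh hκ1 hSO hne
  simp only [← hu, ← hx, ← hy] at hres
  rw [← hdA, ← hdB, ← hdC] at hres
  refine ⟨hω, hsum, ?_, hres.1, ?_⟩
  · intro i
    have h1 : |T ω i - ω i| ≤ 1 / L :=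
      le_trans (Finset.single_le_sum (f := fun i => |T ω i - ω i|)
        (fun _ _ => abs_nonneg _) (Finset.mem_univ i)) hsum
    have h2 : 1 / L ≤ 1 := by rw [div_le_one (by linarith)]; exact hL
    have h3 : |T ω i| ≤ |T ω i - ω i| + |ω i| := by
      have := abs_add_le (T ω i - ω i) (ω i)
      simpa using this
    have h4 := hω i
    linarith
  · rw [hres.2.1, hres.2.2]; exact hz

end W993.SD
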