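import Pool.Agent.W993.SD.Basic

/-! Project SD: the shear step. -/

set_option autoImplicit false
open MeasureTheory ProbabilityTheory

namespace W993.SD

variable {m n k : ℕ}

open Classical in
/-- deterministic part: after the shear the basis is strictly optimal at the start -/
lemma shear_det (A : Fin m → Fin n → ℝ) (b : Fin m → ℝ) (c : Fin n → ℝ)
    (f : Fin k → Fin m) (h : Fin k → Fin n) (Λ g₂ τ t : ℝ) (hΛ : 1 ≤ Λ) (hg : 0 ≤ g₂)
    (hτ : 0 < τ) (ht0 : 0 ≤ t) (htτ : t ≤ τ) (hA : ∀ i j, |A i j| ≤ Λ)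
    (hgs : gs A f h ≤ g₂)
    (hW : WO A (fun i => b i + t) (fun j => c j - t) f h) :
    SO A (fun i => b i + (2 * τ * (1 + Λ * g₂)) *
        (∑ a', A i (h a') + if i ∈ Set.range f then 0 else 1))
      (fun j => c j + (2 * τ * (1 + Λ * g₂)) *
        (∑ a, A (f a) j - if j ∈ Set.range h then 0 else 1)) f h := by
  obtain ⟨hd, hx, hy, hs, hr⟩ := hW
  set ξ := 2 * τ * (1 + Λ * g₂) with hξ
  have hgΛ : g₂ ≤ Λ * g₂ := by nlinarith
  have hξ0 : 0 < ξ := by positivity
  have hξ1 : τ * (1 + Λ * g₂) < ξ := by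
    have : 0 < τ * (1 + Λ * g₂) := by positivity
    rw [hξ]; linarith
  have hτg : τ * g₂ ≤ τ * (1 + Λ * g₂) := by
    apply mul_le_mul_of_nonneg_left _ hτ.le
    linarith
  have hgs0 := gs_nonneg A f h
  have htg : |t| * gs A f h ≤ τ * g₂ := by
    rw [abs_of_nonneg ht0]; exact mul_le_mul htτ hgs hgs0 hτ.le
  have htg' : |-t| * gs A f h ≤ τ * g₂ := by rw [abs_neg]; exact htg
  have hxs := (abs_xk_const_sum A t f h).trans htg
  have hys := (abs_yk_const_sum A (-t) f h).trans htg'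
  -- velocities
  have hxv : ∀ a, |xk A (fun _ => t) f h a| ≤ τ * g₂ := fun a =>
    le_trans (Finset.single_le_sum (f := fun a => |xk A (fun _ => t) f h a|)
      (fun _ _ => abs_nonneg _) (Finset.mem_univ a)) hxs
  have hyv : ∀ a, |yk A (fun _ => -t) f h a| ≤ τ * g₂ := fun a =>
    le_trans (Finset.single_le_sum (f := fun a => |yk A (fun _ => -t) f h a|)
      (fun _ _ => abs_nonneg _) (Finset.mem_univ a)) hys
  have hxt : ∀ a, xk A (fun i => b i + t) f h a = xk A b f h a + xk A (fun _ => t) f h a :=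
    fun a => xk_add A b (fun _ => t) f h a
  have hyt : ∀ a, yk A (fun i => c i - t) f h a = yk A c f h a + yk A (fun _ => -t) f h a := by
    intro a
    have := yk_add A c (fun _ => -t) f h a
    simpa [sub_eq_add_neg] using this
  have hxb : xk A (fun i => b i + ξ * (∑ a', A i (h a') + if i ∈ Set.range f then 0 else 1)) f h
      = fun a => xk A b f h a + ξ := by
    refine xk_unique A _ f h hd _ fun a => ?_
    simp only [mul_add, Finset.sum_add_distrib, Set.mem_range_self, if_true, mul_zero, add_zero]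
    rw [xk_spec A b f h hd a, ← Finset.sum_mul, mul_comm ξ]
  have hyc : yk A (fun j => c j + ξ * (∑ a, A (f a) j - if j ∈ Set.range h then 0 else 1)) f h
      = fun a => yk A c f h a + ξ := by
    refine yk_unique A _ f h hd _ fun a' => ?_
    simp only [mul_add, Finset.sum_add_distrib, Set.mem_range_self, if_true, sub_zero]
    rw [yk_spec A c f h hd a', ← Finset.sum_mul, mul_comm ξ]
  refine ⟨hd, fun a => ?_, fun a => ?_, fun i hi => ?_, fun j hj => ?_⟩
  · rw [hxb]
    have h1 := hx a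
    rw [hxt] at h1
    have h2 := (abs_le.1 (hxv a)).2
    simp only
    linarith
  · rw [hyc]
    have h1 := hy a
    rw [hyt] at h1
    have h2 := (abs_le.1 (hyv a)).2
    simp only
    linarith
  · rw [hxb]
    simp only [if_neg hi]
    have h1 := hs i hi
    have e1 : ∑ a', A i (h a') * xk A (fun i => b i + t) f h a' =
        ∑ a', A i (h a') * xk A b f h a' + ∑ a', A i (h a') * xk A (fun _ => t) f h a' := by
      rw [← Finset.sum_add_distrib]
      exact Finset.sum_congr rfl fun a' _ => by rw [hxt]; ring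
    have e2 : |∑ a', A i (h a') * xk A (fun _ => t) f h a'| ≤ Λ * (τ * g₂) := by
      refine (Finset.abs_sum_le_sum_abs _ _).trans ?_
      calc ∑ a', |A i (h a') * xk A (fun _ => t) f h a'|
          ≤ ∑ a', Λ * |xk A (fun _ => t) f h a'| := Finset.sum_le_sum fun a' _ => by
            rw [abs_mul]; exact mul_le_mul_of_nonneg_right (hA _ _) (abs_nonneg _)
        _ = Λ * ∑ a', |xk A (fun _ => t) f h a'| := by rw [Finset.mul_sum]
        _ ≤ Λ * (τ * g₂) := mul_le_mul_of_nonneg_left hxs (by linarith)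
    have e3 := (abs_le.1 e2).1
    have e4 : ∑ a', A i (h a') * (xk A b f h a' + ξ) =
        ∑ a', A i (h a') * xk A b f h a' + ξ * ∑ a', A i (h a') := by
      simp only [mul_add, Finset.sum_add_distrib]
      rw [← Finset.sum_mul, mul_comm ξ]
    rw [e4]
    simp only at h1
    rw [e1] at h1
    nlinarith
  · rw [hyc]
    simp only [if_neg hj]
    have h1 := hr j hj
    have e1 : ∑ a, A (f a) j * yk A (fun i => c i - t) f h a =
        ∑ a, A (f a) j * yk A c f h a + ∑ a, A (f a) j * yk A (fun _ => -t) f h a := by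
      rw [← Finset.sum_add_distrib]
      exact Finset.sum_congr rfl fun a' _ => by rw [hyt]; ring
    have e2 : |∑ a, A (f a) j * yk A (fun _ => -t) f h a| ≤ Λ * (τ * g₂) := by
      refine (Finset.abs_sum_le_sum_abs _ _).trans ?_
      calc ∑ a, |A (f a) j * yk A (fun _ => -t) f h a|
          ≤ ∑ a, Λ * |yk A (fun _ => -t) f h a| := Finset.sum_le_sum fun a' _ => by
            rw [abs_mul]; exact mul_le_mul_of_nonneg_right (hA _ _) (abs_nonneg _)
        _ = Λ * ∑ a, |yk A (fun _ => -t) f h a| := by rw [Finset.mul_sum]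
        _ ≤ Λ * (τ * g₂) := mul_le_mul_of_nonneg_left hys (by linarith)
    have e3 := (abs_le.1 e2).2
    have e4 : ∑ a, A (f a) j * (yk A c f h a + ξ) =
        ∑ a, A (f a) j * yk A c f h a + ξ * ∑ a, A (f a) j := by
      simp only [mul_add, Finset.sum_add_distrib]
      rw [← Finset.sum_mul, mul_comm ξ]
    rw [e4]
    simp only at h1
    rw [e1] at h1
    nlinarith

open Classical in
/-- the shear vector -/
noncomputable def shv (A₀ : Fin m → Fin n → ℝ) (s ξ : ℝ) (f : Fin k → Fin m)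
    (h : Fin k → Fin n) (ω : Idx m n → ℝ) : Idx m n → ℝ
  | Sum.inl _ => 0
  | Sum.inr (Sum.inl i) => (ξ / s) * (∑ a', dA A₀ s ω i (h a') + if i ∈ Set.range f then 0 else 1)
  | Sum.inr (Sum.inr j) => (ξ / s) * (∑ a, dA A₀ s ω (f a) j - if j ∈ Set.range h then 0 else 1)

lemma measurable_shv (A₀ : Fin m → Fin n → ℝ) (s ξ : ℝ) (f : Fin k → Fin m)
    (h : Fin k → Fin n) : Measurable (shv A₀ s ξ f h) := by
  rw [measurable_pi_iff]
  have hA : ∀ i j, Measurable fun ω : Idx m n → ℝ => dA A₀ s ω i j := fun i j =>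
    (measurable_entry i j).comp (measurable_dA A₀ s)
  rintro (p | i | j)
  · exact measurable_const
  · exact ((Finset.measurable_sum _ fun a' _ => hA _ _).add_const _).const_mul _
  · exact ((Finset.measurable_sum _ fun a' _ => hA _ _).sub_const _).const_mul _

lemma card_le_of_inj {N : ℕ} (f : Fin k → Fin N) (hf : Function.Injective f) : k ≤ N := by
  simpa using Fintype.card_le_of_injective f hf

theorem shear (H1 : S_Transport) (H2 : S_ShearVol) : S_Shear := by
  classical
  intro m n k f h A₀ b₀ c₀ s L H τ g₁ g₂ hf hh hs hs1 hL hH hτ hg hA hτ2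
  have hm0 : (0 : ℝ) ≤ m := Nat.cast_nonneg m
  have hn0 : (0 : ℝ) ≤ n := Nat.cast_nonneg n
  have hΛ1 : 1 ≤ H + L := by linarith
  set ξ : ℝ := 2 * τ * (1 + (H + L) * g₂) with hξ
  have hξ0 : 0 ≤ ξ := by
    have : 0 ≤ (H + L) * g₂ := mul_nonneg (by linarith) hg
    positivity
  set T : (Idx m n → ℝ) → (Idx m n → ℝ) := fun ω => ω + shv A₀ s ξ f h ω with hT
  set V : Set (Idx m n → ℝ) := {ω | Box (2 * L) ω ∧ g₁ ≤ gs (dA A₀ s ω) f h ∧
        SO (dA A₀ s ω) (dB b₀ s ω) (dC c₀ s ω) f h} with hV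
  have hVm : MeasurableSet V := by
    refine (measurableSet_Box _).inter (MeasurableSet.inter ?_ (measurableSet_SO_data _ _ _ _ _ _))
    exact measurableSet_le measurable_const ((measurable_gs f h).comp (measurable_dA A₀ s))
  have hTm : Measurable T := measurable_id.add (measurable_shv A₀ s ξ f h)
  have hvol : ∀ F : (Idx m n → ℝ) → ENNReal, Measurable F →
      ∫⁻ ω, F (T ω) ≤ ENNReal.ofReal (1 : ℝ)⁻¹ * ∫⁻ ω, F ω := by
    intro F hF
    rw [inv_one, ENNReal.ofReal_one, one_mul]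
    refine (H2 (Idx m n) {i | ∃ z, i = Sum.inr z} (shv A₀ s ξ f h) (measurable_shv A₀ s ξ f h)
      ?_ ?_ F hF).le
    · rintro ω (p | z) hi
      · rfl
      · exact absurd ⟨z, rfl⟩ hi
    · intro ω ω' hω
      have e : dA A₀ s ω = dA A₀ s ω' := by
        funext i j
        unfold dA
        rw [hω (Sum.inl (i, j)) (by rintro ⟨z, hz⟩; cases hz)]
      funext q
      rcases q with p | i | j
      · rfl
      · simp only [shv, e]
      · simp only [shv, e]
  have hmain := H1 (Idx m n) T 1 L V hTm le_rfl hL hVm hvol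
  have h8 : ENNReal.ofReal (8 / 1) = 8 := by simp
  rw [h8] at hmain
  refine le_trans (measure_mono ?_) hmain
  rintro ω ⟨hω, hg1, hg2, t, ht0, htτ, hW⟩
  have hAb : ∀ i j, |dA A₀ s ω i j| ≤ H + L := by
    intro i j
    unfold dA
    refine (abs_add_le _ _).trans (add_le_add (hA i j) ?_)
    rw [abs_mul, abs_of_pos hs]
    calc s * |ω (Sum.inl (i, j))| ≤ 1 * L := mul_le_mul hs1 (hω _) (abs_nonneg _) zero_le_one
      _ = L := one_mul _
  have hSO := shear_det _ _ _ f h (H + L) g₂ τ t hΛ1 hg hτ ht0 htτ hAb hg2 hW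
  rw [← hξ] at hSO
  have hdA : dA A₀ s (T ω) = dA A₀ s ω := by
    funext i j
    simp [dA, hT, shv]
  have hdB : dB b₀ s (T ω) = fun i => dB b₀ s ω i + ξ *
        (∑ a', dA A₀ s ω i (h a') + if i ∈ Set.range f then 0 else 1) := by
    funext i
    simp only [dB, hT, shv, Pi.add_apply]
    have : s * (ξ / s) = ξ := mul_div_cancel₀ _ hs.ne'
    rw [mul_add, ← mul_assoc, this]; ring
  have hdC : dC c₀ s (T ω) = fun j => dC c₀ s ω j + ξ *
        (∑ a, dA A₀ s ω (f a) j - if j ∈ Set.range h then 0 else 1) := by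
    funext j
    simp only [dC, hT, shv, Pi.add_apply]
    have : s * (ξ / s) = ξ := mul_div_cancel₀ _ hs.ne'
    rw [mul_add, ← mul_assoc, this]; ring
  -- size of the shear
  obtain ⟨P, hP⟩ : ∃ P : ℝ, P = (m : ℝ) + n + 1 := ⟨_, rfl⟩
  obtain ⟨Λ, hΛ⟩ : ∃ Λ : ℝ, Λ = H + L := ⟨_, rfl⟩
  rw [← hP, ← hΛ] at hτ2
  rw [← hΛ] at hΛ1 hAb hξ
  have hkm : (k : ℝ) ≤ m := by exact_mod_cast card_le_of_inj f hf
  have hkn : (k : ℝ) ≤ n := by exact_mod_cast card_le_of_inj h hh
  have hk1 : (k : ℝ) * Λ + 1 ≤ P * Λ := by rw [hP]; nlinarith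
  have hξs : 0 ≤ ξ / s := div_nonneg hξ0 hs.le
  have hb1 : ∀ i : Fin m, |shv A₀ s ξ f h ω (Sum.inr (Sum.inl i))| ≤ (ξ / s) * (P * Λ) := by
    intro i
    simp only [shv]
    rw [abs_mul, abs_of_nonneg hξs]
    refine mul_le_mul_of_nonneg_left (le_trans ?_ hk1) hξs
    refine (abs_add_le _ _).trans (add_le_add ?_ ?_)
    · refine (Finset.abs_sum_le_sum_abs _ _).trans ?_
      calc ∑ a', |dA A₀ s ω i (h a')| ≤ ∑ _a' : Fin k, Λ :=
            Finset.sum_le_sum fun a' _ => hAb _ _
        _ = k * Λ := by simp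
    · split_ifs <;> simp
  have hb2 : ∀ j : Fin n, |shv A₀ s ξ f h ω (Sum.inr (Sum.inr j))| ≤ (ξ / s) * (P * Λ) := by
    intro j
    simp only [shv]
    rw [abs_mul, abs_of_nonneg hξs]
    refine mul_le_mul_of_nonneg_left (le_trans ?_ hk1) hξs
    refine (abs_sub _ _).trans (add_le_add ?_ ?_)
    · refine (Finset.abs_sum_le_sum_abs _ _).trans ?_
      calc ∑ a', |dA A₀ s ω (f a') j| ≤ ∑ _a' : Fin k, Λ :=
            Finset.sum_le_sum fun a' _ => hAb _ _
        _ = k * Λ := by simp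
    · split_ifs <;> simp
  have hsum : ∑ i, |T ω i - ω i| ≤ 1 / L := by
    have e : ∀ i, T ω i - ω i = shv A₀ s ξ f h ω i := fun i => by simp [hT]
    simp only [e]
    rw [Fintype.sum_sum_type, Fintype.sum_sum_type]
    have z1 : ∑ x : Fin m × Fin n, |shv A₀ s ξ f h ω (Sum.inl x)| = 0 := by simp [shv]
    rw [z1, zero_add]
    calc ∑ i : Fin m, |shv A₀ s ξ f h ω (Sum.inr (Sum.inl i))| +
          ∑ j : Fin n, |shv A₀ s ξ f h ω (Sum.inr (Sum.inr j))|
        ≤ ∑ _i : Fin m, (ξ / s) * (P * Λ) + ∑ _j : Fin n, (ξ / s) * (P * Λ) :=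
          add_le_add (Finset.sum_le_sum fun i _ => hb1 i) (Finset.sum_le_sum fun j _ => hb2 j)
      _ = ((m : ℝ) + n) * ((ξ / s) * (P * Λ)) := by simp; ring
      _ ≤ P * ((ξ / s) * (P * Λ)) := by
          refine mul_le_mul_of_nonneg_right (by rw [hP]; linarith) ?_
          have : 0 ≤ P := by rw [hP]; linarith
          positivity
      _ ≤ 1 / L := by
          have hP0 : 0 < P := by rw [hP]; linarith
          have e2 : P * ((ξ / s) * (P * Λ)) = P ^ 2 * Λ * ξ / s := by ring
          rw [e2, div_le_div_iff₀ hs (by linarith)]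
          have hLΛ : L ≤ Λ := by rw [hΛ]; linarith
          have h1 : 1 + Λ * g₂ ≤ Λ * (1 + g₂) := by nlinarith
          calc P ^ 2 * Λ * ξ * L ≤ P ^ 2 * Λ * (2 * τ * (Λ * (1 + g₂))) * Λ := by
                rw [hξ]; gcongr
            _ = 2 * (P ^ 2 * Λ ^ 3 * (1 + g₂) * τ) := by ring
            _ ≤ 8 * (P ^ 2 * Λ ^ 3 * (1 + g₂) * τ) := by
                have : 0 ≤ P ^ 2 * Λ ^ 3 * (1 + g₂) * τ := by positivity
                linarith
            _ = 8 * P ^ 2 * Λ ^ 3 * (1 + g₂) * τ := by ring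
            _ ≤ 1 * s := by linarith
  refine ⟨hω, hsum, ?_, ?_, ?_⟩
  · intro i
    have h1 : |T ω i - ω i| ≤ 1 / L :=
      le_trans (Finset.single_le_sum (f := fun i => |T ω i - ω i|)
        (fun _ _ => abs_nonneg _) (Finset.mem_univ i)) hsum
    have h2 : 1 / L ≤ 1 := by rw [div_le_one (by linarith)]; exact hL
    have h3 : |T ω i| ≤ |T ω i - ω i| + |ω i| := by
      have := abs_add_le (T ω i - ω i) (ω i)
      simpa using this
    have h4 := hω i
    linarith
  · rw [hdA]; exact hg1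
  · rw [hdA, hdB, hdC]; exact hSO

end W993.SD
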