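import Pool.Agent.W993.SD.Basic

/-! Project SD: tail of the dual optimal solution. -/

set_option autoImplicit false
open MeasureTheory ProbabilityTheory

namespace W993.SD

variable {m n : ℕ}

/-- direction of the entries of `A` -/
noncomputable def vA (m n : ℕ) (s : ℝ) : Idx m n → ℝ
  | Sum.inl _ => 1 / s
  | Sum.inr _ => 0

/-- direction of the entries of `A` and (negatively) `c` -/
noncomputable def vAc (m n : ℕ) (s : ℝ) : Idx m n → ℝ
  | Sum.inl _ => 1 / s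
  | Sum.inr (Sum.inl _) => 0
  | Sum.inr (Sum.inr _) => -(1 / s)

/-- direction of the entries of `b` -/
noncomputable def vB (m n : ℕ) (s : ℝ) : Idx m n → ℝ
  | Sum.inl _ => 0
  | Sum.inr (Sum.inl _) => 1 / s
  | Sum.inr (Sum.inr _) => 0

lemma smul_cancel (s t : ℝ) (hs : s ≠ 0) : s * (t * (1 / s)) = t := by field_simp

lemma dA_vA (A₀ : Fin m → Fin n → ℝ) (s : ℝ) (hs : s ≠ 0) (ω : Idx m n → ℝ) (t : ℝ) :
    dA A₀ s (ω + t • vA m n s) = fun i j => dA A₀ s ω i j + t := by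
  funext i j
  simp only [dA, Pi.add_apply, Pi.smul_apply, smul_eq_mul, vA, mul_add, smul_cancel s t hs]
  ring

lemma dA_vAc (A₀ : Fin m → Fin n → ℝ) (s : ℝ) (hs : s ≠ 0) (ω : Idx m n → ℝ) (t : ℝ) :
    dA A₀ s (ω + t • vAc m n s) = fun i j => dA A₀ s ω i j + t := by
  funext i j
  simp only [dA, Pi.add_apply, Pi.smul_apply, smul_eq_mul, vAc, mul_add, smul_cancel s t hs]
  ring

lemma dC_vAc (c₀ : Fin n → ℝ) (s : ℝ) (hs : s ≠ 0) (ω : Idx m n → ℝ) (t : ℝ) :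
    dC c₀ s (ω + t • vAc m n s) = fun j => dC c₀ s ω j - t := by
  funext j
  simp only [dC, Pi.add_apply, Pi.smul_apply, smul_eq_mul, vAc, mul_add]
  have : s * (t * -(1 / s)) = -t := by field_simp
  rw [this]; ring

lemma dA_vB (A₀ : Fin m → Fin n → ℝ) (s : ℝ) (ω : Idx m n → ℝ) (t : ℝ) :
    dA A₀ s (ω + t • vB m n s) = dA A₀ s ω := by
  funext i j
  simp only [dA, Pi.add_apply, Pi.smul_apply, smul_eq_mul, vB, mul_zero, add_zero]

lemma dC_vB (c₀ : Fin n → ℝ) (s : ℝ) (ω : Idx m n → ℝ) (t : ℝ) :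
    dC c₀ s (ω + t • vB m n s) = dC c₀ s ω := by
  funext j
  simp only [dC, Pi.add_apply, Pi.smul_apply, smul_eq_mul, vB, mul_zero, add_zero]

lemma dB_vB (b₀ : Fin m → ℝ) (s : ℝ) (hs : s ≠ 0) (ω : Idx m n → ℝ) (t : ℝ) :
    dB b₀ s (ω + t • vB m n s) = fun i => dB b₀ s ω i + t := by
  funext i
  simp only [dB, Pi.add_apply, Pi.smul_apply, smul_eq_mul, vB, mul_add, smul_cancel s t hs]
  ring

lemma sum_v_le (m n : ℕ) (s : ℝ) (hs : s ≠ 0) :
    ∑ i, |vA m n s i| ≤ ((m : ℝ) + n + 1) ^ 2 / |s| ∧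
    ∑ i, |vAc m n s i| ≤ ((m : ℝ) + n + 1) ^ 2 / |s| ∧
    ∑ i, |vB m n s i| ≤ ((m : ℝ) + n + 1) ^ 2 / |s| := by
  have hm0 : (0 : ℝ) ≤ m := Nat.cast_nonneg m
  have hn0 : (0 : ℝ) ≤ n := Nat.cast_nonneg n
  have hs' : 0 < |s| := abs_pos.2 hs
  have hi : 0 ≤ 1 / |s| := by positivity
  have key : ∀ N : ℝ, N ≤ ((m : ℝ) + n + 1) ^ 2 →
      N * (1 / |s|) ≤ ((m : ℝ) + n + 1) ^ 2 / |s| := fun N hN => by
    rw [div_eq_mul_one_div (((m : ℝ) + n + 1) ^ 2)]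
    exact mul_le_mul_of_nonneg_right hN hi
  refine ⟨?_, ?_, ?_⟩
  · rw [Fintype.sum_sum_type, Fintype.sum_sum_type]
    simp only [vA, abs_zero, Finset.sum_const_zero, add_zero, Finset.sum_const, Finset.card_univ,
      Fintype.card_prod, Fintype.card_fin, nsmul_eq_mul, abs_div, abs_one]
    push_cast
    exact key _ (by nlinarith)
  · rw [Fintype.sum_sum_type, Fintype.sum_sum_type]
    simp only [vAc, abs_zero, Finset.sum_const_zero, zero_add, Finset.sum_const, Finset.card_univ,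
      Fintype.card_prod, Fintype.card_fin, nsmul_eq_mul, abs_neg, abs_div, abs_one]
    push_cast
    rw [← add_mul]
    exact key _ (by nlinarith)
  · rw [Fintype.sum_sum_type, Fintype.sum_sum_type]
    simp only [vB, abs_zero, Finset.sum_const_zero, zero_add, add_zero, Finset.sum_const,
      Finset.card_univ, Fintype.card_fin, nsmul_eq_mul, abs_div, abs_one]
    exact key _ (by nlinarith)

theorem tailY (H1 : S_Det) (H2 : S_Thr) (H3 : S_Prod) : S_TailY := by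
  refine ⟨320000, by norm_num, ?_⟩
  intro m n A₀ b₀ c₀ s H L R hs hs1 hH hL hR hBD
  have hm0 : (0 : ℝ) ≤ m := Nat.cast_nonneg m
  have hn0 : (0 : ℝ) ≤ n := Nat.cast_nonneg n
  have hs' : 0 < |s| := abs_pos.2 hs
  -- the empty case
  rcases Nat.eq_zero_or_pos m with hm | hm
  · have : {ω : Idx m n → ℝ | Box L ω ∧ ∃ (k : ℕ) (f : Fin k → Fin m) (h : Fin k → Fin n),
        Function.Injective f ∧ Function.Injective h ∧
        SO (dA A₀ s ω) (dB b₀ s ω) (dC c₀ s ω) f h ∧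
        ∃ a, R < yk (dA A₀ s ω) (dC c₀ s ω) f h a} = ∅ := by
      rw [Set.eq_empty_iff_forall_notMem]
      rintro ω ⟨-, k, f, h, -, -, -, a, -⟩
      subst hm
      exact (f a).elim0
    rw [this]; simp
  rcases Nat.eq_zero_or_pos n with hn | hn
  · have : {ω : Idx m n → ℝ | Box L ω ∧ ∃ (k : ℕ) (f : Fin k → Fin m) (h : Fin k → Fin n),
        Function.Injective f ∧ Function.Injective h ∧
        SO (dA A₀ s ω) (dB b₀ s ω) (dC c₀ s ω) f h ∧
        ∃ a, R < yk (dA A₀ s ω) (dC c₀ s ω) f h a} = ∅ := by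
      rw [Set.eq_empty_iff_forall_notMem]
      rintro ω ⟨-, k, f, h, -, -, -, a, -⟩
      subst hn
      exact (h a).elim0
    rw [this]; simp
  obtain ⟨t1, t2, t3, t4, t5, t6⟩ := H2 m n A₀ b₀ c₀ s hm hn hs
  obtain ⟨s1, s2, s3⟩ := sum_v_le m n s hs
  obtain ⟨Λ, hΛ⟩ : ∃ Λ : ℝ, Λ = H + L := ⟨_, rfl⟩
  obtain ⟨P, hP⟩ : ∃ P : ℝ, P = (m : ℝ) + n + 1 := ⟨_, rfl⟩
  obtain ⟨i, hi⟩ : ∃ i : ℝ, i = 1 / |s| := ⟨_, rfl⟩
  have hΛ1 : 1 ≤ Λ := by rw [hΛ]; linarith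
  have hP1 : 1 ≤ P := by rw [hP]; linarith
  have hi1 : 1 ≤ i := by rw [hi, le_div_iff₀ hs']; linarith
  have hQ : Q m n H L s = P * Λ * i := by
    unfold Q; rw [← hP, ← hΛ, hi]; ring
  have hlogR : 0 ≤ Real.log R := Real.log_nonneg hR
  have hR0 : 0 < R := by linarith
  obtain ⟨ε, hε⟩ : ∃ ε : ℝ, ε = 16 * Λ ^ 2 / R := ⟨_, rfl⟩
  have hε0 : 0 < ε := by rw [hε]; positivity
  have hQ1 : 1 ≤ Q m n H L s := by
    rw [hQ]
    exact one_le_mul_of_one_le_of_one_le (one_le_mul_of_one_le_of_one_le hP1 hΛ1) hi1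
  rcases lt_or_ge 1 ε with hε1 | hε1
  · -- trivial bound
    refine prob_le_one.trans ?_
    rw [← ENNReal.ofReal_one]
    refine ENNReal.ofReal_le_ofReal ?_
    rw [le_div_iff₀ hR0, one_mul]
    have h1 : R ≤ 16 * Λ ^ 2 := by
      rw [hε, lt_div_iff₀ hR0] at hε1; linarith
    have h2 : Λ ^ 2 ≤ Q m n H L s ^ 10 := by
      calc Λ ^ 2 ≤ (P * Λ * i) ^ 2 := by
            refine pow_le_pow_left₀ (by linarith) ?_ 2
            calc Λ = 1 * Λ * 1 := by ring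
              _ ≤ P * Λ * i := by gcongr
        _ = Q m n H L s ^ 2 := by rw [hQ]
        _ ≤ Q m n H L s ^ 10 := pow_le_pow_right₀ hQ1 (by norm_num)
    calc R ≤ 16 * Λ ^ 2 := h1
      _ ≤ 16 * Q m n H L s ^ 10 := by linarith
      _ ≤ 320000 * Q m n H L s ^ 10 * (1 + Real.log R) := by
          have h3 : 0 ≤ Q m n H L s ^ 10 := by positivity
          nlinarith [mul_nonneg h3 hlogR]
  -- main case
  obtain ⟨W, hW⟩ : ∃ W : ℝ, W = ((m : ℝ) + n + 1) ^ 2 / |s| := ⟨_, rfl⟩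
  have hW' : W = P ^ 2 * i := by rw [hW, ← hP, hi]; ring
  have hW1 : 1 ≤ W := by
    rw [hW']; exact one_le_mul_of_one_le_of_one_le (one_le_pow₀ hP1) hi1
  rw [← hW] at s1 s2 s3
  have hp1 := H3 (Idx m n) (fun ω => Dist (dA A₀ s ω) (dB b₀ s ω)) (fun ω => gv (dA A₀ s ω))
    (vA m n s) (vB m n s) W W L ε t1 t2 hL hε0 hε1 hW1 hW1 s1 s3
    (fun ω t => by simp only [dA_vA A₀ s hs]; exact t4 _ _)
    (fun ω t => by simp only [dA_vB])
    (fun ω t x₀ h0 h1 h2 h3 => by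
      simp only [dA_vB, dB_vB b₀ s hs] at h3
      exact t6 _ _ t x₀ h0 h1 h2 h3)
  have hp2 := H3 (Idx m n) (fun ω => Dist (dA A₀ s ω) (dB b₀ s ω))
    (fun ω => gv (aug (dA A₀ s ω) (dC c₀ s ω)))
    (vAc m n s) (vB m n s) W W L ε t1 t3 hL hε0 hε1 hW1 hW1 s2 s3
    (fun ω t => by simp only [dA_vAc A₀ s hs, dC_vAc c₀ s hs]; exact t5 _ _ _)
    (fun ω t => by simp only [dA_vB, dC_vB])
    (fun ω t x₀ h0 h1 h2 h3 => by
      simp only [dA_vB, dB_vB b₀ s hs] at h3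
      exact t6 _ _ t x₀ h0 h1 h2 h3)
  have hsub : {ω : Idx m n → ℝ | Box L ω ∧ ∃ (k : ℕ) (f : Fin k → Fin m) (h : Fin k → Fin n),
        Function.Injective f ∧ Function.Injective h ∧
        SO (dA A₀ s ω) (dB b₀ s ω) (dC c₀ s ω) f h ∧
        ∃ a, R < yk (dA A₀ s ω) (dC c₀ s ω) f h a} ⊆
      {ω | Box L ω ∧ |Dist (dA A₀ s ω) (dB b₀ s ω)| * |gv (dA A₀ s ω)| ≤ ε} ∪
      {ω | Box L ω ∧ |Dist (dA A₀ s ω) (dB b₀ s ω)| *
        |gv (aug (dA A₀ s ω) (dC c₀ s ω))| ≤ ε} := by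
    rintro ω ⟨hω, k, f, h, hf, hh, hSO, ha⟩
    have hB := BD_data (ω := ω) hs1 (by linarith : (0 : ℝ) ≤ L) hBD hω
    rw [← hΛ] at hB
    rw [hε]
    rcases H1 m n k _ _ _ f h Λ R hm hn hΛ1 hR0 hB hf hh hSO ha with h1 | h1
    · left; exact ⟨hω, h1⟩
    · right; exact ⟨hω, h1⟩
  refine (measure_mono hsub).trans ((measure_union_le _ _).trans
    ((add_le_add hp1 hp2).trans ?_))
  have hlog : Real.log (1 / ε) ≤ Real.log R := by
    refine Real.log_le_log (by positivity) ?_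
    rw [hε, one_div, inv_div, div_le_iff₀ (by positivity)]
    have : 1 ≤ 16 * Λ ^ 2 := by
      have := one_le_pow₀ hΛ1 (n := 2); linarith
    nlinarith
  have hlog0 : 0 ≤ Real.log (1 / ε) :=
    Real.log_nonneg (by rw [le_div_iff₀ hε0]; linarith)
  rw [← ENNReal.ofReal_add (by positivity) (by positivity)]
  refine ENNReal.ofReal_le_ofReal ?_
  have hLΛ : L ≤ Λ := by rw [hΛ]; linarith
  have hQ10 : P ^ 4 * Λ ^ 4 * i ^ 2 ≤ Q m n H L s ^ 10 := by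
    calc P ^ 4 * Λ ^ 4 * i ^ 2 ≤ P ^ 10 * Λ ^ 10 * i ^ 10 := by
          gcongr <;> first | assumption | norm_num
      _ = Q m n H L s ^ 10 := by rw [hQ]; ring
  calc 10000 * L ^ 2 * W * W * ε * (1 + Real.log (1 / ε)) +
        10000 * L ^ 2 * W * W * ε * (1 + Real.log (1 / ε))
      = 20000 * L ^ 2 * W * W * ε * (1 + Real.log (1 / ε)) := by ring
    _ ≤ 20000 * Λ ^ 2 * W * W * ε * (1 + Real.log R) := by gcongr
    _ = 320000 * (P ^ 4 * Λ ^ 4 * i ^ 2) * (1 + Real.log R) / R := by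
        rw [hε, hW']; ring
    _ ≤ 320000 * Q m n H L s ^ 10 * (1 + Real.log R) / R := by gcongr

end W993.SD
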