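import Pool.Agent.W993.SD.Final
import Pool.Agent.W993.SD.Norm
import Pool.Agent.W993.SD.Count
import Pool.Agent.W993.SD.Shear
import Pool.Agent.W993.SD.Scaling
import Pool.Agent.W993.SD.Dict
import Pool.Agent.W993.SD.TailY
import Pool.Agent.W134.SD.Cond
import Pool.Agent.W134.SD.Prod
import Pool.Agent.W134.SD.Single
import Pool.Agent.W134.SD.Transport
import Pool.Agent.W134.SD.Vol
import Pool.Agent.W583.SD.Centre
import Pool.Agent.W583.SD.Det
import Pool.Agent.W583.SD.Rescale
import Pool.Agent.W583.SD.Thr
import Pool.Agent.W583.SD.Unique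

/-! Project SD: all parts together. -/

set_option autoImplicit false
open MeasureTheory ProbabilityTheory

namespace W993.SD

theorem pTransport : S_Transport := Pool.Agent.W134.SD.transport
theorem pSingle : S_Single := Pool.Agent.W134.SD.single pTransport
theorem pJoint : S_Joint := Pool.Agent.W134.SD.joint pTransport
theorem pProd : S_Prod := Pool.Agent.W134.SD.prod pSingle pJoint
theorem pTailY : S_TailY := tailY Pool.Agent.W583.SD.det Pool.Agent.W583.SD.thr pProd
theorem pScaling : S_Scaling :=
  scaling pTransport Pool.Agent.W134.SD.scaleVol Pool.Agent.W583.SD.centre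
    Pool.Agent.W583.SD.rescale
theorem pShear : S_Shear := shear pTransport Pool.Agent.W134.SD.shearVol
theorem pCond (h : S_TailX) : S_Cond :=
  Pool.Agent.W134.SD.cond Pool.Agent.W583.SD.unique h pTailY pScaling
theorem pCount (h : S_TailX) (h' : S_Small) : S_Count :=
  count pShear (pCond h) h' Pool.Agent.W583.SD.unique
theorem pNorm (h : S_TailX) (h' : S_Small) : S_Norm :=
  norm (pCount h h') Pool.Agent.W134.SD.tail dict Pool.Agent.W583.SD.unique

end W993.SD
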