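import Mathlib

/-!
Project SD (MP_84734f_lc, frozen S14985): polynomial smoothed complexity of the self-dual
parametric simplex method.  Definitions and exact statements of the independent parts.

Data: `A : Fin m → Fin n → ℝ`, `b : Fin m → ℝ`, `c : Fin n → ℝ`.
A basis is a pair of injections `f : Fin k → Fin m`, `h : Fin k → Fin n`
(tight rows, basic columns) with nonsingular `sub A f h`.
-/

set_option autoImplicit false
open MeasureTheory ProbabilityTheory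

namespace W993.SD

/-- standard Gaussian measure on `ι → ℝ` -/
noncomputable def G (ι : Type) [Fintype ι] : Measure (ι → ℝ) :=
  Measure.pi (fun _ : ι => gaussianReal 0 1)

/-- index set of the entries of `(A, b, c)` -/
abbrev Idx (m n : ℕ) : Type := (Fin m × Fin n) ⊕ (Fin m ⊕ Fin n)

/-- the perturbed matrix -/
def dA {m n : ℕ} (A₀ : Fin m → Fin n → ℝ) (s : ℝ) (ω : Idx m n → ℝ) : Fin m → Fin n → ℝ :=
  fun i j => A₀ i j + s * ω (Sum.inl (i, j))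
/-- the perturbed right hand side -/
def dB {m n : ℕ} (b₀ : Fin m → ℝ) (s : ℝ) (ω : Idx m n → ℝ) : Fin m → ℝ :=
  fun i => b₀ i + s * ω (Sum.inr (Sum.inl i))
/-- the perturbed cost vector -/
def dC {m n : ℕ} (c₀ : Fin n → ℝ) (s : ℝ) (ω : Idx m n → ℝ) : Fin n → ℝ :=
  fun j => c₀ j + s * ω (Sum.inr (Sum.inr j))

/-- the square submatrix with rows `f` and columns `h` -/
def sub {m n k : ℕ} (A : Fin m → Fin n → ℝ) (f : Fin k → Fin m) (h : Fin k → Fin n) :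
    Matrix (Fin k) (Fin k) ℝ := Matrix.of fun a a' => A (f a) (h a')

/-- sum of the absolute values of the entries of the inverse -/
noncomputable def gs {m n k : ℕ} (A : Fin m → Fin n → ℝ) (f : Fin k → Fin m)
    (h : Fin k → Fin n) : ℝ := ∑ a, ∑ a', |(sub A f h)⁻¹ a a'|

/-- primal basic solution, on `Fin k` -/
noncomputable def xk {m n k : ℕ} (A : Fin m → Fin n → ℝ) (b : Fin m → ℝ)
    (f : Fin k → Fin m) (h : Fin k → Fin n) : Fin k → ℝ :=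
  fun a' => ∑ a, (sub A f h)⁻¹ a' a * b (f a)
/-- dual basic solution, on `Fin k` -/
noncomputable def yk {m n k : ℕ} (A : Fin m → Fin n → ℝ) (c : Fin n → ℝ)
    (f : Fin k → Fin m) (h : Fin k → Fin n) : Fin k → ℝ :=
  fun a => ∑ a', (sub A f h)⁻¹ a' a * c (h a')

/-- strictly optimal basis -/
def SO {m n k : ℕ} (A : Fin m → Fin n → ℝ) (b : Fin m → ℝ) (c : Fin n → ℝ)
    (f : Fin k → Fin m) (h : Fin k → Fin n) : Prop :=
  (sub A f h).det ≠ 0 ∧ (∀ a, 0 < xk A b f h a) ∧ (∀ a, 0 < yk A c f h a) ∧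
  (∀ i, i ∉ Set.range f → ∑ a', A i (h a') * xk A b f h a' < b i) ∧
  (∀ j, j ∉ Set.range h → c j < ∑ a, A (f a) j * yk A c f h a)

/-- weakly optimal basis -/
def WO {m n k : ℕ} (A : Fin m → Fin n → ℝ) (b : Fin m → ℝ) (c : Fin n → ℝ)
    (f : Fin k → Fin m) (h : Fin k → Fin n) : Prop :=
  (sub A f h).det ≠ 0 ∧ (∀ a, 0 ≤ xk A b f h a) ∧ (∀ a, 0 ≤ yk A c f h a) ∧
  (∀ i, i ∉ Set.range f → ∑ a', A i (h a') * xk A b f h a' ≤ b i) ∧
  (∀ j, j ∉ Set.range h → c j ≤ ∑ a, A (f a) j * yk A c f h a)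

/-- the box of noises of size at most `L` -/
def Box {ι : Type} (L : ℝ) (ω : ι → ℝ) : Prop := ∀ i, |ω i| ≤ L

/-- the size parameter in which all bounds are polynomial -/
noncomputable def Q (m n : ℕ) (H L s : ℝ) : ℝ := ((m : ℝ) + n + 1) * (H + L) / |s|

/-- bounded data -/
def BD {m n : ℕ} (H : ℝ) (A₀ : Fin m → Fin n → ℝ) (b₀ : Fin m → ℝ) (c₀ : Fin n → ℝ) : Prop :=
  (∀ i j, |A₀ i j| ≤ H) ∧ (∀ i, |b₀ i| ≤ H) ∧ (∀ j, |c₀ j| ≤ H)

/-! ## Measure theory -/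

/-- SD-1a: transport with bounded density ratio.  `T` contracts Lebesgue measure by `κ` and moves
the points in question by at most `1 / L` in `ℓ¹`. -/
def S_Transport : Prop :=
  ∀ (ι : Type) [Fintype ι] (T : (ι → ℝ) → (ι → ℝ)) (κ L : ℝ) (V : Set (ι → ℝ)),
    Measurable T → 1 ≤ κ → 1 ≤ L → MeasurableSet V →
    (∀ F : (ι → ℝ) → ENNReal, Measurable F →
      ∫⁻ ω, F (T ω) ≤ ENNReal.ofReal κ⁻¹ * ∫⁻ ω, F ω) →
    G ι {ω | Box L ω ∧ ∑ i, |T ω i - ω i| ≤ 1 / L ∧ T ω ∈ V} ≤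
      ENNReal.ofReal (8 / κ) * G ι V

/-- SD-1b: a shear in the coordinates of `s` with amount depending on the other coordinates
preserves Lebesgue measure. -/
def S_ShearVol : Prop :=
  ∀ (ι : Type) [Fintype ι] (s : Set ι) (v : (ι → ℝ) → (ι → ℝ)), Measurable v →
    (∀ ω i, i ∉ s → v ω i = 0) →
    (∀ ω ω' : ι → ℝ, (∀ i, i ∉ s → ω i = ω' i) → v ω = v ω') →
    ∀ F : (ι → ℝ) → ENNReal, Measurable F → ∫⁻ ω, F (ω + v ω) = ∫⁻ ω, F ω

/-- SD-1c: scaling one coordinate by `κ` about a centre not depending on that coordinate. -/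
def S_ScaleVol : Prop :=
  ∀ (ι : Type) [Fintype ι] [DecidableEq ι] (i₀ : ι) (p : (ι → ℝ) → ℝ) (κ : ℝ),
    Measurable p → 1 ≤ κ → (∀ ω z, p (Function.update ω i₀ z) = p ω) →
    ∀ F : (ι → ℝ) → ENNReal, Measurable F →
      ∫⁻ ω, F (Function.update ω i₀ (p ω + κ * (ω i₀ - p ω))) =
        ENNReal.ofReal κ⁻¹ * ∫⁻ ω, F ω

/-- SD-2: Gaussian tail. -/
def S_Tail : Prop :=
  ∀ (ι : Type) [Fintype ι] (L : ℝ), 0 ≤ L →
    G ι {ω | ¬ Box L ω} ≤ ENNReal.ofReal (2 * Fintype.card ι * Real.exp (-(L ^ 2 / 2)))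

/-- SD-3a: anticoncentration by disjoint translates. -/
def S_Single : Prop :=
  ∀ (ι : Type) [Fintype ι] (X : (ι → ℝ) → ℝ) (w : ι → ℝ) (W L x₀ : ℝ),
    Measurable X → 1 ≤ L → 0 < x₀ → 0 < W → ∑ i, |w i| ≤ W →
    (∀ (ω : ι → ℝ) (t : ℝ), |X ω| ≤ x₀ → |X (ω + t • w)| ≤ x₀ → |t| ≤ 2 * x₀) →
    G ι {ω | Box L ω ∧ |X ω| ≤ x₀} ≤ ENNReal.ofReal (8 * min 1 (12 * L * W * x₀))

/-- SD-3b: joint anticoncentration by disjoint translates. -/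
def S_Joint : Prop :=
  ∀ (ι : Type) [Fintype ι] (X Y : (ι → ℝ) → ℝ) (v w : ι → ℝ) (V W L x₀ y₀ : ℝ),
    Measurable X → Measurable Y → 1 ≤ L → 0 < x₀ → 0 < y₀ → 0 < V → 0 < W →
    ∑ i, |v i| ≤ V → ∑ i, |w i| ≤ W →
    (∀ (ω : ι → ℝ) (t : ℝ), Y (ω + t • v) = Y ω + t) →
    (∀ (ω : ι → ℝ) (t : ℝ), Y (ω + t • w) = Y ω) →
    (∀ (ω : ι → ℝ) (t : ℝ), |X ω| ≤ x₀ → |X (ω + t • w)| ≤ x₀ → |t| ≤ 2 * x₀) →
    G ι {ω | Box L ω ∧ |X ω| ≤ x₀ ∧ |Y ω| ≤ y₀} ≤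
      ENNReal.ofReal (8 * min 1 (12 * L * W * x₀) * min 1 (12 * L * V * y₀))

/-- SD-4: product form. `X` is clipped at `1`. -/
def S_Prod : Prop :=
  ∀ (ι : Type) [Fintype ι] (X Y : (ι → ℝ) → ℝ) (v w : ι → ℝ) (V W L ε : ℝ),
    Measurable X → Measurable Y → 1 ≤ L → 0 < ε → ε ≤ 1 → 1 ≤ V → 1 ≤ W →
    ∑ i, |v i| ≤ V → ∑ i, |w i| ≤ W →
    (∀ (ω : ι → ℝ) (t : ℝ), Y (ω + t • v) = Y ω + t) →
    (∀ (ω : ι → ℝ) (t : ℝ), Y (ω + t • w) = Y ω) →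
    (∀ (ω : ι → ℝ) (t x₀ : ℝ), 0 < x₀ → x₀ < 1 → |X ω| ≤ x₀ → |X (ω + t • w)| ≤ x₀ →
      |t| ≤ 2 * x₀) →
    G ι {ω | Box L ω ∧ |X ω| * |Y ω| ≤ ε} ≤
      ENNReal.ofReal (10000 * L ^ 2 * V * W * ε * (1 + Real.log (1 / ε)))

/-! ## Linear programming -/

/-- SD-5: a strictly optimal basis is the only one. -/
def S_Unique : Prop :=
  ∀ (m n k k' : ℕ) (A : Fin m → Fin n → ℝ) (b : Fin m → ℝ) (c : Fin n → ℝ)
    (f : Fin k → Fin m) (h : Fin k → Fin n) (f' : Fin k' → Fin m) (h' : Fin k' → Fin n),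
    Function.Injective f → Function.Injective h → Function.Injective f' → Function.Injective h' →
    SO A b c f h → WO A b c f' h' → Set.range f = Set.range f' ∧ Set.range h = Set.range h'

/-- clipped distance to infeasibility -/
noncomputable def Dist {m n : ℕ} (A : Fin m → Fin n → ℝ) (b : Fin m → ℝ) : ℝ :=
  ⨅ x : {x : Fin n → ℝ // ∀ j, 0 ≤ x j},
    max (-1) (⨆ i : Fin m, (∑ j, A i j * x.1 j - b i))

/-- value of a matrix game -/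
noncomputable def gv {m n : ℕ} (A : Fin m → Fin n → ℝ) : ℝ :=
  ⨅ x : stdSimplex ℝ (Fin n), ⨆ i : Fin m, ∑ j, A i j * x.1 j

/-- the matrix `A` with the extra row `-c` -/
def aug {m n : ℕ} (A : Fin m → Fin n → ℝ) (c : Fin n → ℝ) : Fin (m + 1) → Fin n → ℝ :=
  Fin.snoc A (fun j => - c j)

/-- SD-6: the deterministic inequality behind the tail bound of the dual optimum. -/
def S_Det : Prop :=
  ∀ (m n k : ℕ) (A : Fin m → Fin n → ℝ) (b : Fin m → ℝ) (c : Fin n → ℝ)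
    (f : Fin k → Fin m) (h : Fin k → Fin n) (Λ R : ℝ),
    0 < m → 0 < n → 1 ≤ Λ → 0 < R → BD Λ A b c →
    Function.Injective f → Function.Injective h → SO A b c f h →
    (∃ a, R < yk A c f h a) →
    |Dist A b| * |gv A| ≤ 16 * Λ ^ 2 / R ∨ |Dist A b| * |gv (aug A c)| ≤ 16 * Λ ^ 2 / R

/-- SD-7: measurability and behaviour of the three thresholds under shifts. -/
def S_Thr : Prop :=
  ∀ (m n : ℕ) (A₀ : Fin m → Fin n → ℝ) (b₀ : Fin m → ℝ) (c₀ : Fin n → ℝ) (s : ℝ),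
    0 < m → 0 < n → s ≠ 0 →
    (Measurable fun ω : Idx m n → ℝ => Dist (dA A₀ s ω) (dB b₀ s ω)) ∧
    (Measurable fun ω : Idx m n → ℝ => gv (dA A₀ s ω)) ∧
    (Measurable fun ω : Idx m n → ℝ => gv (aug (dA A₀ s ω) (dC c₀ s ω))) ∧
    (∀ (A : Fin m → Fin n → ℝ) (t : ℝ), gv (fun i j => A i j + t) = gv A + t) ∧
    (∀ (A : Fin m → Fin n → ℝ) (c : Fin n → ℝ) (t : ℝ),
      gv (aug (fun i j => A i j + t) (fun j => c j - t)) = gv (aug A c) + t) ∧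
    (∀ (A : Fin m → Fin n → ℝ) (b : Fin m → ℝ) (t x₀ : ℝ), 0 < x₀ → x₀ < 1 →
      |Dist A b| ≤ x₀ → |Dist A (fun i => b i + t)| ≤ x₀ → |t| ≤ 2 * x₀)

/-- SD-8: tail of the dual optimal solution. -/
def S_TailY : Prop :=
  ∃ C : ℝ, 0 < C ∧ ∀ (m n : ℕ) (A₀ : Fin m → Fin n → ℝ) (b₀ : Fin m → ℝ) (c₀ : Fin n → ℝ)
    (s H L R : ℝ), s ≠ 0 → |s| ≤ 1 → 1 ≤ H → 1 ≤ L → 1 ≤ R → BD H A₀ b₀ c₀ →
    G (Idx m n) {ω | Box L ω ∧ ∃ (k : ℕ) (f : Fin k → Fin m) (h : Fin k → Fin n),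
        Function.Injective f ∧ Function.Injective h ∧
        SO (dA A₀ s ω) (dB b₀ s ω) (dC c₀ s ω) f h ∧
        ∃ a, R < yk (dA A₀ s ω) (dC c₀ s ω) f h a} ≤
      ENNReal.ofReal (C * Q m n H L s ^ 10 * (1 + Real.log R) / R)

/-- SD-9: the same for the primal optimal solution (by duality from `S_TailY`). -/
def S_TailX : Prop :=
  ∃ C : ℝ, 0 < C ∧ ∀ (m n : ℕ) (A₀ : Fin m → Fin n → ℝ) (b₀ : Fin m → ℝ) (c₀ : Fin n → ℝ)
    (s H L R : ℝ), s ≠ 0 → |s| ≤ 1 → 1 ≤ H → 1 ≤ L → 1 ≤ R → BD H A₀ b₀ c₀ →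
    G (Idx m n) {ω | Box L ω ∧ ∃ (k : ℕ) (f : Fin k → Fin m) (h : Fin k → Fin n),
        Function.Injective f ∧ Function.Injective h ∧
        SO (dA A₀ s ω) (dB b₀ s ω) (dC c₀ s ω) f h ∧
        ∃ a, R < xk (dA A₀ s ω) (dB b₀ s ω) f h a} ≤
      ENNReal.ofReal (C * Q m n H L s ^ 10 * (1 + Real.log R) / R)

/-! ## The two steps with changes of variables -/

/-- SD-10: linear algebra of the centres. `p` (for the entry `A i j`), `q` (for `b i`), `r` (for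
`c j`), where `i = f a₀`, `j = h a₀'`. -/
def S_Centre : Prop :=
  ∀ (m n k : ℕ) (f : Fin k → Fin m) (h : Fin k → Fin n) (a₀ a₀' : Fin k),
    Function.Injective f → Function.Injective h →
    ∃ (p : (Fin m → Fin n → ℝ) → ℝ) (q : (Fin m → Fin n → ℝ) → (Fin m → ℝ) → ℝ)
      (r : (Fin m → Fin n → ℝ) → (Fin n → ℝ) → ℝ),
      Measurable p ∧ Measurable (Function.uncurry q) ∧ Measurable (Function.uncurry r) ∧
      (∀ A z, p (Function.update A (f a₀) (Function.update (A (f a₀)) (h a₀') z)) = p A) ∧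
      (∀ A b z, q (Function.update A (f a₀) (Function.update (A (f a₀)) (h a₀') z)) b = q A b) ∧
      (∀ A b z, q A (Function.update b (f a₀) z) = q A b) ∧
      (∀ A c z, r (Function.update A (f a₀) (Function.update (A (f a₀)) (h a₀') z)) c = r A c) ∧
      (∀ A c z, r A (Function.update c (h a₀') z) = r A c) ∧
      (∀ A b c, (sub A f h).det ≠ 0 → (sub A f h)⁻¹ a₀' a₀ ≠ 0 →
        A (f a₀) (h a₀') - p A = ((sub A f h)⁻¹ a₀' a₀)⁻¹ ∧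
        b (f a₀) - q A b = ((sub A f h)⁻¹ a₀' a₀)⁻¹ * xk A b f h a₀' ∧
        c (h a₀') - r A c = ((sub A f h)⁻¹ a₀' a₀)⁻¹ * yk A c f h a₀)

/-- SD-11: the scaled data has the same basic solution. -/
def S_Rescale : Prop :=
  ∀ (m n k : ℕ) (f : Fin k → Fin m) (h : Fin k → Fin n) (a₀ a₀' : Fin k)
    (A : Fin m → Fin n → ℝ) (b : Fin m → ℝ) (c : Fin n → ℝ) (κ : ℝ),
    Function.Injective f → Function.Injective h → 1 ≤ κ → SO A b c f h →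
    (sub A f h)⁻¹ a₀' a₀ ≠ 0 →
    let u := ((sub A f h)⁻¹ a₀' a₀)⁻¹
    let A' := Function.update A (f a₀)
      (Function.update (A (f a₀)) (h a₀') (A (f a₀) (h a₀') + (κ - 1) * u))
    let b' := Function.update b (f a₀) (b (f a₀) + (κ - 1) * (u * xk A b f h a₀'))
    let c' := Function.update c (h a₀') (c (h a₀') + (κ - 1) * (u * yk A c f h a₀))
    SO A' b' c' f h ∧ (∀ a, xk A' b' f h a = xk A b f h a) ∧
      (∀ a, yk A' c' f h a = yk A c f h a)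

/-- SD-12: the scaling step. -/
def S_Scaling : Prop :=
  ∀ (m n k : ℕ) (f : Fin k → Fin m) (h : Fin k → Fin n) (a₀ a₀' : Fin k)
    (A₀ : Fin m → Fin n → ℝ) (b₀ : Fin m → ℝ) (c₀ : Fin n → ℝ) (s L R g : ℝ) (Z : Set (ℝ × ℝ)),
    Function.Injective f → Function.Injective h → 0 < s → 1 ≤ L → 1 ≤ R → 0 < g →
    MeasurableSet Z → (∀ z ∈ Z, |z.1| ≤ R ∧ |z.2| ≤ R) →
    G (Idx m n) {ω | Box L ω ∧ SO (dA A₀ s ω) (dB b₀ s ω) (dC c₀ s ω) f h ∧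
        g ≤ |(sub (dA A₀ s ω) f h)⁻¹ a₀' a₀| ∧
        (xk (dA A₀ s ω) (dB b₀ s ω) f h a₀', yk (dA A₀ s ω) (dC c₀ s ω) f h a₀) ∈ Z} ≤
      ENNReal.ofReal (24 * R * L / (s * g)) *
      G (Idx m n) {ω | Box (2 * L) ω ∧ SO (dA A₀ s ω) (dB b₀ s ω) (dC c₀ s ω) f h ∧
        (xk (dA A₀ s ω) (dB b₀ s ω) f h a₀', yk (dA A₀ s ω) (dC c₀ s ω) f h a₀) ∈ Z}

/-- SD-13: the shear step (a window of length `τ` against its left end). -/
def S_Shear : Prop :=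
  ∀ (m n k : ℕ) (f : Fin k → Fin m) (h : Fin k → Fin n)
    (A₀ : Fin m → Fin n → ℝ) (b₀ : Fin m → ℝ) (c₀ : Fin n → ℝ) (s L H τ g₁ g₂ : ℝ),
    Function.Injective f → Function.Injective h → 0 < s → s ≤ 1 → 1 ≤ L → 1 ≤ H → 0 < τ →
    0 ≤ g₂ → (∀ i j, |A₀ i j| ≤ H) →
    8 * ((m : ℝ) + n + 1) ^ 2 * (H + L) ^ 3 * (1 + g₂) * τ ≤ s →
    G (Idx m n) {ω | Box L ω ∧ g₁ ≤ gs (dA A₀ s ω) f h ∧ gs (dA A₀ s ω) f h ≤ g₂ ∧
        ∃ t : ℝ, 0 ≤ t ∧ t ≤ τ ∧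
          WO (dA A₀ s ω) (fun i => dB b₀ s ω i + t) (fun j => dC c₀ s ω j - t) f h} ≤
      8 * G (Idx m n) {ω | Box (2 * L) ω ∧ g₁ ≤ gs (dA A₀ s ω) f h ∧
        SO (dA A₀ s ω) (dB b₀ s ω) (dC c₀ s ω) f h}

/-- SD-14: crude small ball bound for one entry of the inverse. -/
def S_Small : Prop :=
  ∀ (m n k : ℕ) (f : Fin k → Fin m) (h : Fin k → Fin n)
    (A₀ : Fin m → Fin n → ℝ) (s g : ℝ),
    Function.Injective f → Function.Injective h → 0 < s → 0 < g →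
    G (Idx m n) {ω | (sub (dA A₀ s ω) f h).det ≠ 0 ∧ g ≤ gs (dA A₀ s ω) f h} ≤
      ENNReal.ofReal ((k : ℝ) ^ 4 / (s * g))

/-! ## Sums over the bases -/

/-- rows and columns of the basis given by a pair of finite sets of equal cardinality -/
def fI {m : ℕ} (I : Finset (Fin m)) : Fin I.card → Fin m := fun a => I.orderEmbOfFin rfl a
/-- columns -/
def hJ {m n : ℕ} (I : Finset (Fin m)) (J : Finset (Fin n)) (e : J.card = I.card) :
    Fin I.card → Fin n := fun a => J.orderEmbOfFin e a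

/-- all pairs of index sets of equal cardinality -/
def Bases (m n : ℕ) : Finset (Finset (Fin m) × Finset (Fin n)) :=
  Finset.univ.filter fun p => p.2.card = p.1.card

/-- measure of an event for the basis `p` -/
noncomputable def PB {m n : ℕ} (p : Finset (Fin m) × Finset (Fin n))
    (E : (f : Fin p.1.card → Fin m) → (h : Fin p.1.card → Fin n) → Set (Idx m n → ℝ)) :
    ENNReal :=
  if e : p.2.card = p.1.card then G (Idx m n) (E (fI p.1) (hJ p.1 p.2 e)) else 0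

/-- SD-15: the optimal basis is rarely badly conditioned. -/
def S_Cond : Prop :=
  ∃ C : ℝ, 0 < C ∧ ∀ (m n : ℕ) (A₀ : Fin m → Fin n → ℝ) (b₀ : Fin m → ℝ) (c₀ : Fin n → ℝ)
    (s H L g : ℝ), 0 < s → s ≤ 1 → 1 ≤ H → 1 ≤ L → 1 ≤ g → BD H A₀ b₀ c₀ →
    ∑ p ∈ Bases m n, PB p (fun f h => {ω | Box L ω ∧ g ≤ gs (dA A₀ s ω) f h ∧
        SO (dA A₀ s ω) (dB b₀ s ω) (dC c₀ s ω) f h}) ≤
      ENNReal.ofReal (C * Q m n H L s ^ 16 * (1 + Real.log g) ^ 2 / g)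

/-- SD-16: expected number of bases met in `[0, T]`, inside the box. -/
def S_Count : Prop :=
  ∃ C : ℝ, 0 < C ∧ ∀ (m n : ℕ) (A₀ : Fin m → Fin n → ℝ) (b₀ : Fin m → ℝ) (c₀ : Fin n → ℝ)
    (s H L T : ℝ), 0 < s → s ≤ 1 → 1 ≤ H → 1 ≤ L → 1 ≤ T → BD H A₀ b₀ c₀ →
    ∑ p ∈ Bases m n, PB p (fun f h => {ω | Box L ω ∧ ∃ t : ℝ, 0 ≤ t ∧ t ≤ T ∧
        WO (dA A₀ s ω) (fun i => dB b₀ s ω i + t) (fun j => dC c₀ s ω j - t) f h}) ≤
      ENNReal.ofReal (C * Q m n (H + T) L s ^ 30)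

/-- the set of bases counted in the frozen statement -/
def FB {m n : ℕ} (A : Matrix (Fin m) (Fin n) ℝ) (b : Fin m → ℝ) (c : Fin n → ℝ) :
    Set (Finset (Fin n ⊕ Fin m)) :=
  {B : Finset (Fin n ⊕ Fin m) | B.card = m ∧
    LinearIndependent ℝ
      (fun q : B => (Matrix.transpose
        (Matrix.fromCols A (1 : Matrix (Fin m) (Fin m) ℝ))) q.1) ∧
    ∃ t : ℝ, 0 ≤ t ∧
      (∃ x : Fin n → ℝ, ∃ w : Fin m → ℝ,
        (∀ j : Fin n, 0 ≤ x j) ∧ (∀ i : Fin m, 0 ≤ w i) ∧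
        (∀ i : Fin m, (∑ j : Fin n, A i j * x j) + w i = b i + t) ∧
        (∀ j : Fin n, (Sum.inl j : Fin n ⊕ Fin m) ∉ B → x j = 0) ∧
        (∀ i : Fin m, (Sum.inr i : Fin n ⊕ Fin m) ∉ B → w i = 0)) ∧
      (∃ y : Fin m → ℝ,
        (∀ i : Fin m, 0 ≤ y i) ∧
        (∀ j : Fin n, c j - t ≤ ∑ i : Fin m, A i j * y i) ∧
        (∀ j : Fin n, (Sum.inl j : Fin n ⊕ Fin m) ∈ B →
          ∑ i : Fin m, A i j * y i = c j - t) ∧
        (∀ i : Fin m, (Sum.inr i : Fin n ⊕ Fin m) ∈ B → y i = 0))}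

/-- rows of a basis of the frozen statement -/
def rowsOf {m n : ℕ} (B : Finset (Fin n ⊕ Fin m)) : Finset (Fin m) :=
  Finset.univ.filter fun i => (Sum.inr i : Fin n ⊕ Fin m) ∉ B
/-- columns of a basis of the frozen statement -/
def colsOf {m n : ℕ} (B : Finset (Fin n ⊕ Fin m)) : Finset (Fin n) :=
  Finset.univ.filter fun j => (Sum.inl j : Fin n ⊕ Fin m) ∈ B

/-- SD-17: dictionary between the frozen statement and `WO`. -/
def S_Dict : Prop :=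
  ∀ (m n : ℕ) (A : Matrix (Fin m) (Fin n) ℝ) (b : Fin m → ℝ) (c : Fin n → ℝ)
    (B : Finset (Fin n ⊕ Fin m)), B ∈ FB A b c →
    ∃ e : (colsOf B).card = (rowsOf B).card, ∃ t : ℝ, 0 ≤ t ∧
      WO (fun i j => A i j) (fun i => b i + t) (fun j => c j - t)
        (fI (rowsOf B)) (hJ (rowsOf B) (colsOf B) e)

/-- SD-18: the counted set is invariant under scaling of the data. -/
def S_Scale : Prop :=
  ∀ (m n : ℕ) (A : Matrix (Fin m) (Fin n) ℝ) (b : Fin m → ℝ) (c : Fin n → ℝ) (l : ℝ),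
    0 < l → FB (l • A) (l • b) (l • c) = FB A b c

/-- SD-19: the normalised final bound. -/
def S_Norm : Prop :=
  ∃ C : ℝ, 0 < C ∧ ∃ k : ℕ, ∀ (m n : ℕ) (A₀ : Fin m → Fin n → ℝ) (b₀ : Fin m → ℝ)
    (c₀ : Fin n → ℝ) (s : ℝ), 0 < s → s ≤ 1 → BD 1 A₀ b₀ c₀ →
    ∫⁻ ω, ((FB (Matrix.of (dA A₀ s ω)) (dB b₀ s ω) (dC c₀ s ω)).ncard : ENNReal)
        ∂(G (Idx m n)) ≤
      ENNReal.ofReal (C * ((m : ℝ) + n + 1 / s) ^ k)

end W993.SD
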