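import Pool.Agent.W993.SD.Defs

/-! Shared lemmas of project SD: basic solutions, measurability. -/

set_option autoImplicit false
open MeasureTheory ProbabilityTheory

namespace W993.SD

variable {m n k : ℕ}

lemma sub_mul_inv (A : Fin m → Fin n → ℝ) (f : Fin k → Fin m) (h : Fin k → Fin n)
    (hd : (sub A f h).det ≠ 0) : sub A f h * (sub A f h)⁻¹ = 1 :=
  Matrix.mul_nonsing_inv _ (isUnit_iff_ne_zero.2 hd)

lemma sub_inv_mul (A : Fin m → Fin n → ℝ) (f : Fin k → Fin m) (h : Fin k → Fin n)
    (hd : (sub A f h).det ≠ 0) : (sub A f h)⁻¹ * sub A f h = 1 :=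
  Matrix.nonsing_inv_mul _ (isUnit_iff_ne_zero.2 hd)

lemma xk_eq_mulVec (A : Fin m → Fin n → ℝ) (b : Fin m → ℝ) (f : Fin k → Fin m)
    (h : Fin k → Fin n) : xk A b f h = (sub A f h)⁻¹.mulVec (fun a => b (f a)) := by
  funext a; simp [xk, Matrix.mulVec, dotProduct]

lemma yk_eq_vecMul (A : Fin m → Fin n → ℝ) (c : Fin n → ℝ) (f : Fin k → Fin m)
    (h : Fin k → Fin n) : yk A c f h = Matrix.vecMul (fun a => c (h a)) (sub A f h)⁻¹ := by
  funext a; simp [yk, Matrix.vecMul, dotProduct, mul_comm]

/-- the primal basic solution solves the tight rows -/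
lemma xk_spec (A : Fin m → Fin n → ℝ) (b : Fin m → ℝ) (f : Fin k → Fin m)
    (h : Fin k → Fin n) (hd : (sub A f h).det ≠ 0) (a : Fin k) :
    ∑ a', A (f a) (h a') * xk A b f h a' = b (f a) := by
  have := congrFun (congrArg (fun M => Matrix.mulVec M (fun a => b (f a)))
    (sub_mul_inv A f h hd)) a
  simp only [← Matrix.mulVec_mulVec, ← xk_eq_mulVec, Matrix.one_mulVec] at this
  simpa [Matrix.mulVec, dotProduct, sub] using this

/-- uniqueness of the primal basic solution -/
lemma xk_unique (A : Fin m → Fin n → ℝ) (b : Fin m → ℝ) (f : Fin k → Fin m)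
    (h : Fin k → Fin n) (hd : (sub A f h).det ≠ 0) (x : Fin k → ℝ)
    (hx : ∀ a, ∑ a', A (f a) (h a') * x a' = b (f a)) : xk A b f h = x := by
  have h1 : (sub A f h).mulVec x = fun a => b (f a) := by
    funext a; simpa [Matrix.mulVec, dotProduct, sub] using hx a
  rw [xk_eq_mulVec, ← h1, Matrix.mulVec_mulVec, sub_inv_mul A f h hd, Matrix.one_mulVec]

/-- the dual basic solution solves the basic columns -/
lemma yk_spec (A : Fin m → Fin n → ℝ) (c : Fin n → ℝ) (f : Fin k → Fin m)
    (h : Fin k → Fin n) (hd : (sub A f h).det ≠ 0) (a' : Fin k) :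
    ∑ a, A (f a) (h a') * yk A c f h a = c (h a') := by
  have := congrFun (congrArg (fun M => Matrix.vecMul (fun a => c (h a)) M)
    (sub_inv_mul A f h hd)) a'
  simp only [← Matrix.vecMul_vecMul, ← yk_eq_vecMul, Matrix.vecMul_one] at this
  simpa [Matrix.vecMul, dotProduct, sub, mul_comm] using this

/-- uniqueness of the dual basic solution -/
lemma yk_unique (A : Fin m → Fin n → ℝ) (c : Fin n → ℝ) (f : Fin k → Fin m)
    (h : Fin k → Fin n) (hd : (sub A f h).det ≠ 0) (y : Fin k → ℝ)
    (hy : ∀ a', ∑ a, A (f a) (h a') * y a = c (h a')) : yk A c f h = y := by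
  have h1 : Matrix.vecMul y (sub A f h) = fun a => c (h a) := by
    funext a'; simpa [Matrix.vecMul, dotProduct, sub, mul_comm] using hy a'
  rw [yk_eq_vecMul, ← h1, Matrix.vecMul_vecMul, sub_mul_inv A f h hd, Matrix.vecMul_one]

lemma xk_add (A : Fin m → Fin n → ℝ) (b b' : Fin m → ℝ) (f : Fin k → Fin m)
    (h : Fin k → Fin n) (a : Fin k) :
    xk A (fun i => b i + b' i) f h a = xk A b f h a + xk A b' f h a := by
  simp [xk, mul_add, Finset.sum_add_distrib]

lemma yk_add (A : Fin m → Fin n → ℝ) (c c' : Fin n → ℝ) (f : Fin k → Fin m)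
    (h : Fin k → Fin n) (a : Fin k) :
    yk A (fun i => c i + c' i) f h a = yk A c f h a + yk A c' f h a := by
  simp [yk, mul_add, Finset.sum_add_distrib]

lemma abs_xk_const_sum (A : Fin m → Fin n → ℝ) (t : ℝ) (f : Fin k → Fin m)
    (h : Fin k → Fin n) :
    ∑ a, |xk A (fun _ => t) f h a| ≤ |t| * gs A f h := by
  unfold xk gs
  rw [Finset.mul_sum]
  refine Finset.sum_le_sum fun a _ => ?_
  refine (Finset.abs_sum_le_sum_abs _ _).trans ?_
  rw [Finset.mul_sum]
  refine Finset.sum_le_sum fun a' _ => ?_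
  rw [abs_mul, mul_comm]

lemma abs_yk_const_sum (A : Fin m → Fin n → ℝ) (t : ℝ) (f : Fin k → Fin m)
    (h : Fin k → Fin n) :
    ∑ a, |yk A (fun _ => t) f h a| ≤ |t| * gs A f h := by
  unfold yk gs
  rw [Finset.sum_comm, Finset.mul_sum]
  refine Finset.sum_le_sum fun a _ => ?_
  refine (Finset.abs_sum_le_sum_abs _ _).trans ?_
  rw [Finset.mul_sum]
  refine Finset.sum_le_sum fun a' _ => ?_
  rw [abs_mul, mul_comm]

lemma gs_nonneg (A : Fin m → Fin n → ℝ) (f : Fin k → Fin m) (h : Fin k → Fin n) :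
    0 ≤ gs A f h :=
  Finset.sum_nonneg fun _ _ => Finset.sum_nonneg fun _ _ => abs_nonneg _

lemma le_gs (A : Fin m → Fin n → ℝ) (f : Fin k → Fin m) (h : Fin k → Fin n) (a a' : Fin k) :
    |(sub A f h)⁻¹ a a'| ≤ gs A f h := by
  unfold gs
  refine le_trans ?_ (Finset.single_le_sum
    (f := fun a => ∑ a', |(sub A f h)⁻¹ a a'|)
    (fun _ _ => Finset.sum_nonneg fun _ _ => abs_nonneg _) (Finset.mem_univ a))
  exact Finset.single_le_sum (f := fun a' => |(sub A f h)⁻¹ a a'|)
    (fun _ _ => abs_nonneg _) (Finset.mem_univ a')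

/-! ### Measurability -/

lemma measurable_entry (i : Fin m) (j : Fin n) :
    Measurable fun A : Fin m → Fin n → ℝ => A i j := by fun_prop

lemma continuous_sub (f : Fin k → Fin m) (h : Fin k → Fin n) :
    Continuous fun A : Fin m → Fin n → ℝ => sub A f h := by
  refine continuous_matrix fun a a' => ?_
  simp only [sub, Matrix.of_apply]
  fun_prop

lemma measurable_det (f : Fin k → Fin m) (h : Fin k → Fin n) :
    Measurable fun A : Fin m → Fin n → ℝ => (sub A f h).det :=
  (continuous_sub f h).matrix_det.measurable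

lemma measurable_adj (f : Fin k → Fin m) (h : Fin k → Fin n) (a a' : Fin k) :
    Measurable fun A : Fin m → Fin n → ℝ => (sub A f h).adjugate a a' :=
  ((continuous_sub f h).matrix_adjugate.matrix_elem a a').measurable

lemma inv_entry_eq (A : Fin m → Fin n → ℝ) (f : Fin k → Fin m) (h : Fin k → Fin n)
    (a a' : Fin k) : (sub A f h)⁻¹ a a' = (sub A f h).det⁻¹ * (sub A f h).adjugate a a' := by
  rw [Matrix.inv_def, Matrix.smul_apply, smul_eq_mul, Ring.inverse_eq_inv']

lemma measurable_inv_entry (f : Fin k → Fin m) (h : Fin k → Fin n) (a a' : Fin k) :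
    Measurable fun A : Fin m → Fin n → ℝ => (sub A f h)⁻¹ a a' := by
  simp_rw [inv_entry_eq]
  exact (measurable_det f h).inv.mul (measurable_adj f h a a')

lemma measurable_gs (f : Fin k → Fin m) (h : Fin k → Fin n) :
    Measurable fun A : Fin m → Fin n → ℝ => gs A f h := by
  unfold gs
  refine Finset.measurable_sum _ fun a _ => Finset.measurable_sum _ fun a' _ => ?_
  have := measurable_inv_entry f h a a'
  exact (continuous_abs.measurable.comp this :)

lemma measurable_xk_comp {Ω : Type*} [MeasurableSpace Ω] {A : Ω → Fin m → Fin n → ℝ}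
    {b : Ω → Fin m → ℝ} (hA : Measurable A) (hb : Measurable b)
    (f : Fin k → Fin m) (h : Fin k → Fin n) (a : Fin k) :
    Measurable fun ω => xk (A ω) (b ω) f h a := by
  unfold xk
  refine Finset.measurable_sum _ fun a' _ => Measurable.mul ?_ ?_
  · have := (measurable_inv_entry f h a a').comp hA
    exact this
  · exact (measurable_pi_apply (f a')).comp hb

lemma measurable_yk_comp {Ω : Type*} [MeasurableSpace Ω] {A : Ω → Fin m → Fin n → ℝ}
    {c : Ω → Fin n → ℝ} (hA : Measurable A) (hc : Measurable c)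
    (f : Fin k → Fin m) (h : Fin k → Fin n) (a : Fin k) :
    Measurable fun ω => yk (A ω) (c ω) f h a := by
  unfold yk
  refine Finset.measurable_sum _ fun a' _ => Measurable.mul ?_ ?_
  · have := (measurable_inv_entry f h a' a).comp hA
    exact this
  · exact (measurable_pi_apply (h a')).comp hc

lemma measurable_dA (A₀ : Fin m → Fin n → ℝ) (s : ℝ) :
    Measurable fun ω : Idx m n → ℝ => dA A₀ s ω := by
  unfold dA; fun_prop

lemma measurable_dB (b₀ : Fin m → ℝ) (s : ℝ) :
    Measurable fun ω : Idx m n → ℝ => dB b₀ s ω := by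
  unfold dB; fun_prop

lemma measurable_dC (c₀ : Fin n → ℝ) (s : ℝ) :
    Measurable fun ω : Idx m n → ℝ => dC c₀ s ω := by
  unfold dC; fun_prop

/-- strict optimality is a measurable event -/
lemma measurableSet_SO {Ω : Type*} [MeasurableSpace Ω] {A : Ω → Fin m → Fin n → ℝ}
    {b : Ω → Fin m → ℝ} {c : Ω → Fin n → ℝ} (hA : Measurable A) (hb : Measurable b)
    (hc : Measurable c) (f : Fin k → Fin m) (h : Fin k → Fin n) :
    MeasurableSet {ω | SO (A ω) (b ω) (c ω) f h} := by
  have hAij : ∀ i j, Measurable fun ω => A ω i j := fun i j =>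
    (measurable_entry i j).comp hA
  have hbi : ∀ i, Measurable fun ω => b ω i := fun i => (measurable_pi_apply i).comp hb
  have hcj : ∀ j, Measurable fun ω => c ω j := fun j => (measurable_pi_apply j).comp hc
  have hx := fun a => measurable_xk_comp hA hb f h a
  have hy := fun a => measurable_yk_comp hA hc f h a
  have h0 : MeasurableSet {ω | (sub (A ω) f h).det ≠ 0} :=
    ((measurable_det f h).comp hA) (measurableSet_singleton (0 : ℝ)).compl
  have h1 : MeasurableSet {ω | ∀ a, 0 < xk (A ω) (b ω) f h a} := by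
    rw [Set.ofPred_forall]
    exact MeasurableSet.iInter fun a => measurableSet_lt measurable_const (hx a)
  have h2 : MeasurableSet {ω | ∀ a, 0 < yk (A ω) (c ω) f h a} := by
    rw [Set.ofPred_forall]
    exact MeasurableSet.iInter fun a => measurableSet_lt measurable_const (hy a)
  have h3 : MeasurableSet {ω | ∀ i, i ∉ Set.range f →
      ∑ a', A ω i (h a') * xk (A ω) (b ω) f h a' < b ω i} := by
    rw [Set.ofPred_forall]
    refine MeasurableSet.iInter fun i => ?_
    by_cases hi : i ∈ Set.range f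
    · have : {ω | i ∉ Set.range f → ∑ a', A ω i (h a') * xk (A ω) (b ω) f h a' < b ω i} =
          Set.univ := by ext ω; simp only [Set.mem_ofPred_eq, Set.mem_univ, iff_true]; tauto
      rw [this]; exact MeasurableSet.univ
    · simp only [hi, not_false_eq_true, forall_const]
      exact measurableSet_lt (Finset.measurable_sum _ fun a' _ => (hAij i (h a')).mul (hx a'))
        (hbi i)
  have h4 : MeasurableSet {ω | ∀ j, j ∉ Set.range h →
      c ω j < ∑ a, A ω (f a) j * yk (A ω) (c ω) f h a} := by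
    rw [Set.ofPred_forall]
    refine MeasurableSet.iInter fun j => ?_
    by_cases hj : j ∈ Set.range h
    · have : {ω | j ∉ Set.range h → c ω j < ∑ a, A ω (f a) j * yk (A ω) (c ω) f h a} =
          Set.univ := by ext ω; simp only [Set.mem_ofPred_eq, Set.mem_univ, iff_true]; tauto
      rw [this]; exact MeasurableSet.univ
    · simp only [hj, not_false_eq_true, forall_const]
      exact measurableSet_lt (hcj j)
        (Finset.measurable_sum _ fun a _ => (hAij (f a) j).mul (hy a))
  exact h0.inter (h1.inter (h2.inter (h3.inter h4)))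

lemma measurableSet_SO_data (A₀ : Fin m → Fin n → ℝ) (b₀ : Fin m → ℝ) (c₀ : Fin n → ℝ) (s : ℝ)
    (f : Fin k → Fin m) (h : Fin k → Fin n) :
    MeasurableSet {ω : Idx m n → ℝ | SO (dA A₀ s ω) (dB b₀ s ω) (dC c₀ s ω) f h} :=
  measurableSet_SO (measurable_dA A₀ s) (measurable_dB b₀ s) (measurable_dC c₀ s) f h

lemma measurableSet_Box {ι : Type} [Countable ι] (L : ℝ) :
    MeasurableSet {ω : ι → ℝ | Box L ω} := by
  unfold Box
  rw [Set.ofPred_forall]
  refine MeasurableSet.iInter fun i => ?_
  exact measurableSet_le (continuous_abs.measurable.comp (measurable_pi_apply i))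
    measurable_const

lemma Box_mono {ι : Type} {L L' : ℝ} (h : L ≤ L') {ω : ι → ℝ} (hω : Box L ω) : Box L' ω :=
  fun i => (hω i).trans h

lemma SO.wo {A : Fin m → Fin n → ℝ} {b : Fin m → ℝ} {c : Fin n → ℝ}
    {f : Fin k → Fin m} {h : Fin k → Fin n} (H : SO A b c f h) : WO A b c f h :=
  ⟨H.1, fun a => (H.2.1 a).le, fun a => (H.2.2.1 a).le, fun i hi => (H.2.2.2.1 i hi).le,
    fun j hj => (H.2.2.2.2 j hj).le⟩

/-- the data of a point of the box is bounded -/
lemma BD_data {A₀ : Fin m → Fin n → ℝ} {b₀ : Fin m → ℝ} {c₀ : Fin n → ℝ} {s H L : ℝ}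
    (hs : |s| ≤ 1) (_hL : 0 ≤ L) (hB : BD H A₀ b₀ c₀) {ω : Idx m n → ℝ} (hω : Box L ω) :
    BD (H + L) (dA A₀ s ω) (dB b₀ s ω) (dC c₀ s ω) := by
  have key : ∀ x i, |x| ≤ H → |x + s * ω i| ≤ H + L := fun x i hx => by
    refine (abs_add_le _ _).trans (add_le_add hx ?_)
    rw [abs_mul]
    calc |s| * |ω i| ≤ 1 * L := mul_le_mul hs (hω i) (abs_nonneg _) zero_le_one
      _ = L := one_mul _
  exact ⟨fun i j => key _ _ (hB.1 i j), fun i => key _ _ (hB.2.1 i), fun j => key _ _ (hB.2.2 j)⟩

instance (ι : Type) [Fintype ι] : IsProbabilityMeasure (G ι) := by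
  unfold G; infer_instance

lemma fI_injective (I : Finset (Fin m)) : Function.Injective (fI I) :=
  (I.orderEmbOfFin rfl).injective

lemma hJ_injective (I : Finset (Fin m)) (J : Finset (Fin n)) (e : J.card = I.card) :
    Function.Injective (hJ I J e) := (J.orderEmbOfFin e).injective

lemma range_fI (I : Finset (Fin m)) : Set.range (fI I) = (I : Set (Fin m)) := by
  have : fI I = ⇑(I.orderEmbOfFin rfl) := rfl
  rw [this, Finset.range_orderEmbOfFin]

lemma range_hJ (I : Finset (Fin m)) (J : Finset (Fin n)) (e : J.card = I.card) :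
    Set.range (hJ I J e) = (J : Set (Fin n)) := by
  have : hJ I J e = ⇑(J.orderEmbOfFin e) := rfl
  rw [this, Finset.range_orderEmbOfFin]

end W993.SD
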