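import Pool.Agent.W993.SD.Basic

/-! Project SD: from the normalised bound to the frozen statement. -/

set_option autoImplicit false
open MeasureTheory ProbabilityTheory

namespace W993.SD

/-- Frobenius norm of the data -/
noncomputable def Fr {m n : ℕ} (A₀ : Matrix (Fin m) (Fin n) ℝ) (b₀ : Fin m → ℝ)
    (c₀ : Fin n → ℝ) : ℝ :=
  Real.sqrt ((∑ i : Fin m, ∑ j : Fin n, A₀ i j ^ 2)
                + (∑ i : Fin m, b₀ i ^ 2) + (∑ j : Fin n, c₀ j ^ 2))

lemma entry_le_Fr {m n : ℕ} (A₀ : Matrix (Fin m) (Fin n) ℝ) (b₀ : Fin m → ℝ)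
    (c₀ : Fin n → ℝ) : BD (Fr A₀ b₀ c₀) (fun i j => A₀ i j) b₀ c₀ := by
  have hA : ∀ i, 0 ≤ ∑ j : Fin n, A₀ i j ^ 2 := fun i =>
    Finset.sum_nonneg fun j _ => sq_nonneg _
  have hAA : 0 ≤ ∑ i : Fin m, ∑ j : Fin n, A₀ i j ^ 2 := Finset.sum_nonneg fun i _ => hA i
  have hb : 0 ≤ ∑ i : Fin m, b₀ i ^ 2 := Finset.sum_nonneg fun j _ => sq_nonneg _
  have hc : 0 ≤ ∑ j : Fin n, c₀ j ^ 2 := Finset.sum_nonneg fun j _ => sq_nonneg _
  refine ⟨fun i j => ?_, fun i => ?_, fun j => ?_⟩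
  · refine Real.abs_le_sqrt ?_
    have h1 : A₀ i j ^ 2 ≤ ∑ j : Fin n, A₀ i j ^ 2 :=
      Finset.single_le_sum (f := fun j => A₀ i j ^ 2) (fun j _ => sq_nonneg _) (Finset.mem_univ j)
    have h2 : ∑ j : Fin n, A₀ i j ^ 2 ≤ ∑ i : Fin m, ∑ j : Fin n, A₀ i j ^ 2 :=
      Finset.single_le_sum (f := fun i => ∑ j : Fin n, A₀ i j ^ 2) (fun i _ => hA i)
        (Finset.mem_univ i)
    linarith
  · refine Real.abs_le_sqrt ?_
    have h1 : b₀ i ^ 2 ≤ ∑ i : Fin m, b₀ i ^ 2 :=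
      Finset.single_le_sum (f := fun i => b₀ i ^ 2) (fun j _ => sq_nonneg _) (Finset.mem_univ i)
    linarith
  · refine Real.abs_le_sqrt ?_
    have h1 : c₀ j ^ 2 ≤ ∑ j : Fin n, c₀ j ^ 2 :=
      Finset.single_le_sum (f := fun i => c₀ i ^ 2) (fun j _ => sq_nonneg _) (Finset.mem_univ j)
    linarith

lemma FB_zero_subsingleton {m n : ℕ} (b : Fin m → ℝ) (c : Fin n → ℝ) :
    (FB (0 : Matrix (Fin m) (Fin n) ℝ) b c).ncard ≤ 1 := by
  rw [Set.ncard_le_one (Set.toFinite _)]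
  have key : ∀ B ∈ FB (0 : Matrix (Fin m) (Fin n) ℝ) b c,
      B = Finset.univ.image (Sum.inr : Fin m → Fin n ⊕ Fin m) := by
    intro B hB
    obtain ⟨h1, h2, -⟩ := hB
    apply Finset.eq_of_subset_of_card_le
    · intro q hq
      rcases q with j | i
      · exfalso
        have := h2.ne_zero ⟨Sum.inl j, hq⟩
        apply this
        funext i
        simp [Matrix.fromCols]
      · simp
    · rw [h1, Finset.card_image_of_injective _ Sum.inr_injective]
      simp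
  intro B hB B' hB'
  rw [key B hB, key B' hB']

theorem final (H1 : S_Norm) (H2 : S_Scale) :
    ∃ σ₀ : ℝ, 0 < σ₀ ∧ ∃ C : ℝ, ∃ k : ℕ, ∀ m n : ℕ, ∀ σ : ℝ, 0 < σ → σ ≤ σ₀ →
      ∀ (A₀ : Matrix (Fin m) (Fin n) ℝ) (b₀ : Fin m → ℝ) (c₀ : Fin n → ℝ),
        ∫⁻ ω : Idx m n → ℝ, ((FB
            (A₀ + (σ * Fr A₀ b₀ c₀) •
              Matrix.of (fun (i : Fin m) (j : Fin n) => ω (Sum.inl (i, j))))
            (b₀ + (σ * Fr A₀ b₀ c₀) • (fun i : Fin m => ω (Sum.inr (Sum.inl i))))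
            (c₀ + (σ * Fr A₀ b₀ c₀) •
              (fun j : Fin n => ω (Sum.inr (Sum.inr j))))).ncard : ENNReal)
          ∂(G (Idx m n)) ≤ ENNReal.ofReal (C * ((m : ℝ) + n + 1 / σ) ^ k) := by
  obtain ⟨C, hC, k, H⟩ := H1
  refine ⟨1, one_pos, max C 1, k, ?_⟩
  intro m n σ hσ hσ1 A₀ b₀ c₀
  have h1σ : 1 ≤ 1 / σ := by rw [le_div_iff₀ hσ]; linarith
  have hP : (1 : ℝ) ≤ (m : ℝ) + n + 1 / σ := by
    have : (0 : ℝ) ≤ m := Nat.cast_nonneg m
    have : (0 : ℝ) ≤ n := Nat.cast_nonneg n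
    linarith
  have hPk : (1 : ℝ) ≤ ((m : ℝ) + n + 1 / σ) ^ k := one_le_pow₀ hP
  have hF0 : 0 ≤ Fr A₀ b₀ c₀ := Real.sqrt_nonneg _
  have hBD := entry_le_Fr A₀ b₀ c₀
  rcases hF0.eq_or_lt with hF | hF
  · -- zero data
    have hA : A₀ = 0 := by
      ext i j
      have := hBD.1 i j
      rw [← hF] at this
      simpa using abs_nonpos_iff.1 this
    calc ∫⁻ ω : Idx m n → ℝ, ((FB
            (A₀ + (σ * Fr A₀ b₀ c₀) •
              Matrix.of (fun (i : Fin m) (j : Fin n) => ω (Sum.inl (i, j))))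
            (b₀ + (σ * Fr A₀ b₀ c₀) • (fun i : Fin m => ω (Sum.inr (Sum.inl i))))
            (c₀ + (σ * Fr A₀ b₀ c₀) •
              (fun j : Fin n => ω (Sum.inr (Sum.inr j))))).ncard : ENNReal)
          ∂(G (Idx m n)) ≤ ∫⁻ _ : Idx m n → ℝ, 1 ∂(G (Idx m n)) := by
          refine lintegral_mono fun ω => ?_
          rw [← hF, hA, mul_zero, zero_smul, add_zero]
          refine (Nat.cast_le.2 (FB_zero_subsingleton _ _)).trans ?_
          simp
      _ = 1 := by simp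
      _ ≤ ENNReal.ofReal (max C 1 * ((m : ℝ) + n + 1 / σ) ^ k) := by
          rw [← ENNReal.ofReal_one]
          refine ENNReal.ofReal_le_ofReal ?_
          calc (1 : ℝ) = 1 * 1 := by ring
            _ ≤ max C 1 * ((m : ℝ) + n + 1 / σ) ^ k :=
              mul_le_mul (le_max_right _ _) hPk zero_le_one (by positivity)
  · -- scale by the norm
    set F := Fr A₀ b₀ c₀ with hFdef
    have hBD1 : BD 1 (fun i j => A₀ i j / F) (fun i => b₀ i / F) (fun j => c₀ j / F) := by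
      refine ⟨fun i j => ?_, fun i => ?_, fun j => ?_⟩
      · rw [abs_div, abs_of_pos hF, div_le_one hF]; exact hBD.1 i j
      · rw [abs_div, abs_of_pos hF, div_le_one hF]; exact hBD.2.1 i
      · rw [abs_div, abs_of_pos hF, div_le_one hF]; exact hBD.2.2 j
    have := H m n (fun i j => A₀ i j / F) (fun i => b₀ i / F) (fun j => c₀ j / F) σ hσ hσ1 hBD1
    refine le_trans (lintegral_mono fun ω => ?_) (this.trans ?_)
    · have e1 : A₀ + (σ * F) • Matrix.of (fun (i : Fin m) (j : Fin n) => ω (Sum.inl (i, j))) =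
          F • (Matrix.of (dA (fun i j => A₀ i j / F) σ ω)) := by
        ext i j
        simp only [Matrix.add_apply, Matrix.smul_apply, Matrix.of_apply, smul_eq_mul, dA]
        field_simp
      have e2 : b₀ + (σ * F) • (fun i : Fin m => ω (Sum.inr (Sum.inl i))) =
          F • dB (fun i => b₀ i / F) σ ω := by
        funext i
        simp only [Pi.add_apply, Pi.smul_apply, smul_eq_mul, dB]
        field_simp
      have e3 : c₀ + (σ * F) • (fun j : Fin n => ω (Sum.inr (Sum.inr j))) =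
          F • dC (fun i => c₀ i / F) σ ω := by
        funext i
        simp only [Pi.add_apply, Pi.smul_apply, smul_eq_mul, dC]
        field_simp
      rw [e1, e2, e3, H2 m n _ _ _ F hF]
    · refine ENNReal.ofReal_le_ofReal ?_
      exact mul_le_mul_of_nonneg_right (le_max_left _ _) (by positivity)

end W993.SD
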